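import Pool.Agent.SL3.Abstract

/-!
# A central element acting by `-1` kills the cohomology

If `z` is a central element of `G` acting by `-1` on the `k`-linear representation `A` and `2` is
invertible in `k`, then `H^n(G, A) = 0` for all `n`.
-/

open CategoryTheory

namespace Pool.Agent.H4.S2P

universe u

noncomputable section

variable {k G : Type u} [CommRing k] [Group G]

/-- The action of a central element, as an endomorphism of a representation. -/
def zHom {z : G} (hz : z ∈ Subgroup.center G) (A : Rep.{u} k G) : A ⟶ A :=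
  Rep.ofHom ⟨A.ρ z, by
    intro g
    rw [← Module.End.mul_eq_comp, ← Module.End.mul_eq_comp, ← map_mul, ← map_mul,
      (Subgroup.mem_center_iff.mp hz g)]⟩

theorem zHom_apply {z : G} (hz : z ∈ Subgroup.center G) (A : Rep.{u} k G) (a : A) :
    (zHom hz A).hom a = A.ρ z a := rfl

/-- Naturality: every morphism of representations commutes with the central element. -/
theorem zHom_comm {z : G} (hz : z ∈ Subgroup.center G) {A B : Rep.{u} k G} (f : A ⟶ B) :
    zHom hz A ≫ f = f ≫ zHom hz B := by
  ext a
  exact Rep.hom_comm_apply f z a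

/-- The chain map of a complex of representations given by the central element. -/
def zChain {z : G} (hz : z ∈ Subgroup.center G) (C : ChainComplex (Rep.{u} k G) ℕ) : C ⟶ C where
  f n := zHom hz (C.X n)
  comm' i j _ := zHom_comm hz (C.d i j)

theorem zHom_trivial {z : G} (hz : z ∈ Subgroup.center G) :
    zHom hz (Rep.trivial k G k) = 𝟙 _ := by
  ext a
  rfl

theorem zHom_eq_neg {z : G} (hz : z ∈ Subgroup.center G) (A : Rep.{u} k G)
    (hA : ∀ a : A, A.ρ z a = -a) : zHom hz A = -𝟙 A := by
  ext a
  exact hA a

theorem comp_zHom {z : G} (hz : z ∈ Subgroup.center G) {A B : Rep.{u} k G}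
    (hA : ∀ a : A, A.ρ z a = -a) (f : B ⟶ A) : zHom hz B ≫ f = -f := by
  rw [zHom_comm hz f, zHom_eq_neg hz A hA, Preadditive.comp_neg, Category.comp_id]

theorem isZero_of_center {z : G} (hz : z ∈ Subgroup.center G) (A : Rep.{u} k G)
    (hA : ∀ a : A, A.ρ z a = -a) (h2 : IsUnit (2 : k)) (n : ℕ) :
    Limits.IsZero (groupCohomology A n) := by
  obtain ⟨c, hc⟩ := h2.exists_left_inv
  let P : ProjectiveResolution (Rep.trivial k G k) := projectiveResolution _
  refine Limits.IsZero.of_iso ?_ (groupCohomologyIso A n P)
  rw [← HomologicalComplex.exactAt_iff_isZero_homology]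
  have hcomm : zChain hz P.complex ≫ P.π
      = P.π ≫ (ChainComplex.single₀ (Rep.{u} k G)).map (𝟙 _) := by
    rw [CategoryTheory.Functor.map_id, Category.comp_id]
    apply HomologicalComplex.to_single_hom_ext
    rw [HomologicalComplex.comp_f]
    change zHom hz (P.complex.X 0) ≫ P.π.f 0 = P.π.f 0
    rw [zHom_comm hz (P.π.f 0)]
    exact (congrArg (fun t => P.π.f 0 ≫ t) (zHom_trivial hz)).trans (Category.comp_id _)
  have H : Homotopy (zChain hz P.complex) (𝟙 P.complex) :=
    ProjectiveResolution.liftHomotopy (𝟙 _) _ _ hcomm (by simp)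
  have two : ∀ {B : Rep.{u} k G} (f g : B ⟶ A), -f = g + f → f = -(c • g) := by
    intro B f g h
    have h1 : (2 : k) • f = -g := by
      rw [two_smul]
      have h3 : f + f + g = 0 := by
        calc f + f + g = f + (g + f) := by abel
          _ = f + -f := by rw [h]
          _ = 0 := by abel
      exact eq_neg_of_add_eq_zero_left h3
    calc f = (1 : k) • f := (one_smul k f).symm
      _ = c • ((2 : k) • f) := by rw [smul_smul, hc]
      _ = -(c • g) := by rw [h1, smul_neg]
  rcases n with _ | n
  · apply Pool.Agent.SL3.yoneda_exactAt_zero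
    intro f hf
    have h := H.comm 0
    rw [Homotopy.dNext_zero_chainComplex, zero_add, Homotopy.prevD_chainComplex] at h
    have h3 : -f = H.hom 0 1 ≫ (P.complex.d 1 0 ≫ f) + f := by
      calc -f = zHom hz (P.complex.X 0) ≫ f := (comp_zHom hz hA f).symm
        _ = (H.hom 0 1 ≫ P.complex.d 1 0 + (𝟙 P.complex : P.complex ⟶ P.complex).f 0) ≫ f :=
            congrArg (fun t => t ≫ f) h
        _ = _ := by
            rw [Preadditive.add_comp, Category.assoc, HomologicalComplex.id_f, Category.id_comp]
    have h4 := two f _ h3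
    rw [hf, Limits.comp_zero, smul_zero, neg_zero] at h4
    exact h4
  · apply Pool.Agent.SL3.yoneda_exactAt_succ
    intro f hf
    have h := H.comm (n + 1)
    rw [Homotopy.dNext_succ_chainComplex, Homotopy.prevD_chainComplex] at h
    have h3 : -f = P.complex.d (n + 1) n ≫ (H.hom n (n + 1) ≫ f) + f := by
      calc -f = zHom hz (P.complex.X (n + 1)) ≫ f := (comp_zHom hz hA f).symm
        _ = (P.complex.d (n + 1) n ≫ H.hom n (n + 1) +
              H.hom (n + 1) (n + 2) ≫ P.complex.d (n + 2) (n + 1) +
              (𝟙 P.complex : P.complex ⟶ P.complex).f (n + 1)) ≫ f :=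
            congrArg (fun t => t ≫ f) h
        _ = _ := by
            rw [Preadditive.add_comp, Preadditive.add_comp, Category.assoc, Category.assoc, hf,
              Limits.comp_zero, add_zero, HomologicalComplex.id_f, Category.id_comp]
    refine ⟨-(c • (H.hom n (n + 1) ≫ f)), ?_⟩
    rw [Preadditive.comp_neg, Linear.comp_smul]
    exact two f _ h3

end

end Pool.Agent.H4.S2P
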