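import Pool.Agent.H4.S2P.Defs
import Pool.Agent.H4.S2P.Center

/-!
# Vanishing of the cohomology of `SL_2(ℤ)^I` for weights of odd parity in some factor
-/

open scoped TensorProduct
open CategoryTheory

namespace Pool.Agent.H4.S2P

section

variable {I : Type} [Fintype I]

open Classical in
/-- The element which is `-1` in the factor `i₀` and `1` in the other factors. -/
noncomputable def zEl (i₀ : I) (R : Type*) [CommRing R] : SL2I I R :=
  fun i => if i = i₀ then -1 else 1

omit [Fintype I] in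
theorem zEl_same (i₀ : I) (R : Type*) [CommRing R] : zEl i₀ R i₀ = -1 := by
  unfold zEl
  exact if_pos rfl

omit [Fintype I] in
theorem zEl_ne {i₀ i : I} (h : i ≠ i₀) (R : Type*) [CommRing R] : zEl i₀ R i = 1 := by
  unfold zEl
  exact if_neg h

omit [Fintype I] in
theorem zEl_comm (i₀ : I) (R : Type*) [CommRing R] (g : SL2I I R) :
    g * zEl i₀ R = zEl i₀ R * g := by
  funext i
  rw [Pi.mul_apply, Pi.mul_apply]
  by_cases h : i = i₀
  · subst h
    rw [zEl_same, mul_neg, neg_mul, mul_one, one_mul]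
  · rw [zEl_ne h, mul_one, one_mul]

omit [Fintype I] in
theorem zEl_center (i₀ : I) (R : Type*) [CommRing R] :
    zEl i₀ R ∈ Subgroup.center (SL2I I R) :=
  Subgroup.mem_center_iff.mpr fun g => zEl_comm i₀ R g

omit [Fintype I] in
theorem redSL2_zEl (i₀ : I) (R : Type*) [CommRing R] : redSL2 I R (zEl i₀ ℤ) = zEl i₀ R := by
  funext i
  change Matrix.SpecialLinearGroup.map (Int.castRingHom R) (zEl i₀ ℤ i) = zEl i₀ R i
  by_cases h : i = i₀
  · subst h
    rw [zEl_same, zEl_same]
    apply Subtype.ext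
    ext a b
    fin_cases a <;> fin_cases b <;> simp
  · rw [zEl_ne h, zEl_ne h, map_one]

theorem zEl_weight (i₀ : I) (lam : I → Fin 2 → ℤ) (hodd : Odd (lam i₀ 0 + lam i₀ 1)) :
    (∏ i, ∏ j, (zEl i₀ ℚ i j j) ^ lam i j : ℚ) = -1 := by
  classical
  rw [Finset.prod_eq_single i₀]
  · rw [Fin.prod_univ_two, zEl_same]
    have h : ∀ j : Fin 2, ((-1 : Matrix.SpecialLinearGroup (Fin 2) ℚ) j j : ℚ) = -1 := by
      intro j
      fin_cases j <;> simp
    rw [h, h, ← zpow_add₀ (by norm_num), hodd.neg_one_zpow]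
  · intro i _ hi
    rw [Fin.prod_univ_two, zEl_ne hi]
    simp
  · intro h
    exact absurd (Finset.mem_univ _) h

variable {V : Type} [AddCommGroup V] [Module ℚ V] {ρ : Representation ℚ (SL2I I ℚ) V}

theorem rho_zEl {lam : I → Fin 2 → ℤ} (h : IsIrrepOfHighestWeight ρ lam) (i₀ : I)
    (hodd : Odd (lam i₀ 0 + lam i₀ 1)) (x : V) : ρ (zEl i₀ ℚ) x = -x := by
  let U : Submodule ℚ V := LinearMap.ker (ρ (zEl i₀ ℚ) + LinearMap.id)
  have hmem : ∀ y : V, y ∈ U ↔ ρ (zEl i₀ ℚ) y = -y := by
    intro y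
    rw [LinearMap.mem_ker, LinearMap.add_apply, LinearMap.id_apply, add_eq_zero_iff_eq_neg]
  have hU : ∀ g, ∀ y ∈ U, ρ g y ∈ U := by
    intro g y hy
    rw [hmem] at hy ⊢
    rw [← Module.End.mul_apply, ← map_mul, ← zEl_comm, map_mul, Module.End.mul_apply, hy, map_neg]
  obtain ⟨v, hv0, hv⟩ := h.highest
  have hvU : v ∈ U := by
    rw [hmem, hv _ ?_, zEl_weight i₀ lam hodd, neg_one_smul]
    intro i
    by_cases hi : i = i₀
    · subst hi
      rw [zEl_same]
      simp
    · rw [zEl_ne hi]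
      simp
  have htop : U = ⊤ := by
    have hirr := h.irreducible
    rcases hirr.eq_bot_or_eq_top (⟨U, fun g y hy => hU g y hy⟩ : Subrepresentation ρ) with h1 | h1
    · exfalso
      have h2 : U = ⊥ := congrArg Subrepresentation.toSubmodule h1
      rw [h2, Submodule.mem_bot] at hvU
      exact hv0 hvU
    · exact congrArg Subrepresentation.toSubmodule h1
  exact (hmem x).mp (htop ▸ Submodule.mem_top)

theorem latRep_zEl {lam : I → Fin 2 → ℤ} (h : IsIrrepOfHighestWeight ρ lam) (i₀ : I)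
    (hodd : Odd (lam i₀ 0 + lam i₀ 1)) (k : Type) [Field k] {M : Submodule ℤ V}
    (hM : LatStable ρ M) (a : k ⊗[ℤ] M) : latRep k hM (zEl i₀ ℤ) a = -a := by
  have h1 : latAct hM (zEl i₀ ℤ) = -LinearMap.id := by
    apply LinearMap.ext
    intro x
    apply Subtype.ext
    change ρ (redSL2 I ℚ (zEl i₀ ℤ)) (x : V) = -(x : V)
    rw [redSL2_zEl, rho_zEl h i₀ hodd]
  change (latAct hM (zEl i₀ ℤ)).baseChange k a = -a
  rw [h1, LinearMap.baseChange_neg, LinearMap.neg_apply, LinearMap.baseChange_id,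
    LinearMap.id_apply]

/-- **Vanishing.** If the highest weight is odd in some factor, then all cohomology groups of
`SL_2(ℤ)^I` with coefficients in the reduction of any stable lattice vanish, in characteristic
different from `2`. -/
theorem vanish {lam : I → Fin 2 → ℤ} (h : IsIrrepOfHighestWeight ρ lam) (i₀ : I)
    (hodd : Odd (lam i₀ 0 + lam i₀ 1)) (k : Type) [Field k] (h2 : (2 : k) ≠ 0)
    {M : Submodule ℤ V} (hM : LatStable ρ M) (n : ℕ) :
    Subsingleton (groupCohomology (Rep.of (latRep k hM)) n) := by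
  apply ModuleCat.subsingleton_of_isZero
  exact isZero_of_center (zEl_center i₀ ℤ) (Rep.of (latRep k hM))
    (fun a => latRep_zEl h i₀ hodd k hM a) (isUnit_iff_ne_zero.mpr h2) n

end

end Pool.Agent.H4.S2P
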