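import Pool.Agent.H4.S2P.Defs
import Pool.Agent.SL3.Galois

/-!
# The cubic `X³ - 4X - 1` of discriminant `229`

Its three roots in `Qbar`, and the homomorphism of the absolute Galois group to the permutations
of the roots.
-/

open Polynomial
open Pool.Agent.SL3 (Qbar GQ IsComplexConj omega cyc LiesOver inertia)

namespace Pool.Agent.H4.S2P

theorem exists_rts : ∃ r : Fin 3 → Qbar, r 0 + r 1 + r 2 = 0 ∧
    r 0 * r 1 + r 1 * r 2 + r 2 * r 0 = -4 ∧ r 0 * r 1 * r 2 = 1 := by
  obtain ⟨a, ha⟩ : ∃ a : Qbar, a ^ 3 - 4 * a - 1 = 0 := by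
    have hdeg : (X ^ 3 - C 4 * X - C 1 : Qbar[X]).degree = 3 := by compute_degree!
    obtain ⟨a, ha⟩ := IsAlgClosed.exists_root (X ^ 3 - C 4 * X - C 1 : Qbar[X])
      (by rw [hdeg]; norm_num)
    refine ⟨a, ?_⟩
    simpa [IsRoot.def] using ha
  obtain ⟨s, hs⟩ := IsAlgClosed.exists_eq_mul_self (16 - 3 * a ^ 2)
  refine ⟨![a, (-a + s) / 2, -a - (-a + s) / 2], ?_, ?_, ?_⟩
  · simp
  · simp only [Matrix.cons_val_zero, Matrix.cons_val_one, Matrix.cons_val_two, Matrix.head_cons,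
      Matrix.tail_cons, Matrix.cons_val]
    linear_combination (1 / 4 : Qbar) * hs
  · simp only [Matrix.cons_val_zero, Matrix.cons_val_one, Matrix.cons_val_two, Matrix.head_cons,
      Matrix.tail_cons, Matrix.cons_val]
    linear_combination (a / 4 : Qbar) * hs + ha

/-- The three roots of `X³ - 4X - 1`. -/
noncomputable def rt : Fin 3 → Qbar := Classical.choose exists_rts

theorem rt_e1 : rt 0 + rt 1 + rt 2 = 0 := (Classical.choose_spec exists_rts).1

theorem rt_e2 : rt 0 * rt 1 + rt 1 * rt 2 + rt 2 * rt 0 = -4 :=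
  (Classical.choose_spec exists_rts).2.1

theorem rt_e3 : rt 0 * rt 1 * rt 2 = 1 := (Classical.choose_spec exists_rts).2.2

theorem factor (x : Qbar) : (x - rt 0) * (x - rt 1) * (x - rt 2) = x ^ 3 - 4 * x - 1 := by
  linear_combination (-x ^ 2) * rt_e1 + x * rt_e2 - rt_e3

theorem rt_root (i : Fin 3) : rt i ^ 3 - 4 * rt i - 1 = 0 := by
  rw [← factor]
  fin_cases i <;> simp

theorem root_iff {x : Qbar} (hx : x ^ 3 - 4 * x - 1 = 0) : ∃ i, x = rt i := by
  rw [← factor, mul_eq_zero, mul_eq_zero, sub_eq_zero, sub_eq_zero, sub_eq_zero] at hx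
  rcases hx with (h | h) | h
  · exact ⟨0, h⟩
  · exact ⟨1, h⟩
  · exact ⟨2, h⟩

/-- The square root of the discriminant. -/
noncomputable def del : Qbar := (rt 0 - rt 1) * (rt 1 - rt 2) * (rt 0 - rt 2)

theorem del_sq : del ^ 2 = 229 := by
  have key : del ^ 2 = (rt 0 + rt 1 + rt 2) ^ 2 * (rt 0 * rt 1 + rt 1 * rt 2 + rt 2 * rt 0) ^ 2
      - 4 * (rt 0 * rt 1 + rt 1 * rt 2 + rt 2 * rt 0) ^ 3
      - 4 * (rt 0 + rt 1 + rt 2) ^ 3 * (rt 0 * rt 1 * rt 2)
      + 18 * (rt 0 + rt 1 + rt 2) * (rt 0 * rt 1 + rt 1 * rt 2 + rt 2 * rt 0)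
        * (rt 0 * rt 1 * rt 2) - 27 * (rt 0 * rt 1 * rt 2) ^ 2 := by
    unfold del
    ring
  rw [key, rt_e1, rt_e2, rt_e3]
  norm_num

theorem del_ne : del ≠ 0 := by
  intro h
  have := del_sq
  rw [h] at this
  norm_num at this

theorem rt_inj : Function.Injective rt := by
  have h := del_ne
  unfold del at h
  have h01 : rt 0 ≠ rt 1 := fun e => h (by rw [e]; ring)
  have h12 : rt 1 ≠ rt 2 := fun e => h (by rw [e]; ring)
  have h02 : rt 0 ≠ rt 2 := fun e => h (by rw [e]; ring)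
  intro i j hij
  fin_cases i <;> fin_cases j
  all_goals first
    | rfl
    | exact absurd hij h01
    | exact absurd hij h12
    | exact absurd hij h02
    | exact absurd hij.symm h01
    | exact absurd hij.symm h12
    | exact absurd hij.symm h02

theorem exists_idx (σ : GQ) (i : Fin 3) : ∃ j, σ (rt i) = rt j := by
  apply root_iff
  have h := congrArg σ (rt_root i)
  rw [map_sub, map_sub, map_mul, map_pow, map_zero, map_one, map_ofNat] at h
  exact h

/-- The permutation of the indices of the roots induced by `σ`. -/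
noncomputable def idx (σ : GQ) (i : Fin 3) : Fin 3 := Classical.choose (exists_idx σ i)

theorem idx_spec (σ : GQ) (i : Fin 3) : rt (idx σ i) = σ (rt i) :=
  (Classical.choose_spec (exists_idx σ i)).symm

theorem idx_one (i : Fin 3) : idx 1 i = i := rt_inj (by rw [idx_spec]; rfl)

theorem idx_mul (σ τ : GQ) (i : Fin 3) : idx (σ * τ) i = idx σ (idx τ i) :=
  rt_inj (by rw [idx_spec, idx_spec, idx_spec]; rfl)

/-- The action of the Galois group on the roots. -/
noncomputable def permHom : GQ →* Equiv.Perm (Fin 3) where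
  toFun σ :=
    { toFun := idx σ
      invFun := idx σ⁻¹
      left_inv := fun i => by rw [← idx_mul, inv_mul_cancel, idx_one]
      right_inv := fun i => by rw [← idx_mul, mul_inv_cancel, idx_one] }
  map_one' := Equiv.ext fun i => idx_one i
  map_mul' σ τ := Equiv.ext fun i => idx_mul σ τ i

theorem permHom_spec (σ : GQ) (i : Fin 3) : rt (permHom σ i) = σ (rt i) := idx_spec σ i

theorem permHom_eq_one_iff (σ : GQ) : permHom σ = 1 ↔ ∀ i, σ (rt i) = rt i := by
  constructor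
  · intro h i
    rw [← permHom_spec, h]
    rfl
  · intro h
    apply Equiv.ext
    intro i
    apply rt_inj
    rw [permHom_spec, h]
    rfl

/-- The kernel of `permHom` is open. -/
theorem isOpen_ker_permHom : IsOpen ((permHom).ker : Set GQ) := by
  let L : IntermediateField ℚ Qbar := IntermediateField.adjoin ℚ (Set.range rt)
  have hint : ∀ x ∈ Set.range rt, IsIntegral ℚ x := by
    intro x _
    exact (AlgebraicClosure.isAlgebraic ℚ).isAlgebraic x |>.isIntegral
  have hfin : FiniteDimensional ℚ L :=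
    IntermediateField.finiteDimensional_adjoin (S := Set.range rt) hint
  refine Subgroup.isOpen_mono ?_ (IntermediateField.fixingSubgroup_isOpen L)
  intro σ hσ
  rw [MonoidHom.mem_ker, permHom_eq_one_iff]
  rw [IntermediateField.mem_fixingSubgroup_iff] at hσ
  intro i
  exact hσ (rt i) (IntermediateField.subset_adjoin ℚ _ (Set.mem_range_self i))

/-- Every Galois automorphism acts on the square root of the discriminant through the sign. -/
theorem del_sign (σ : GQ) : σ del = ((Equiv.Perm.sign (permHom σ) : ℤ) : Qbar) * del := by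
  have h : ∀ π : Equiv.Perm (Fin 3),
      (rt (π 0) - rt (π 1)) * (rt (π 1) - rt (π 2)) * (rt (π 0) - rt (π 2))
        = ((Equiv.Perm.sign π : ℤ) : Qbar) * del := by
    have hcases : ∀ π : Equiv.Perm (Fin 3),
        (π 0 = 0 ∧ π 1 = 1 ∧ π 2 = 2 ∧ Equiv.Perm.sign π = 1) ∨
        (π 0 = 1 ∧ π 1 = 2 ∧ π 2 = 0 ∧ Equiv.Perm.sign π = 1) ∨
        (π 0 = 2 ∧ π 1 = 0 ∧ π 2 = 1 ∧ Equiv.Perm.sign π = 1) ∨
        (π 0 = 1 ∧ π 1 = 0 ∧ π 2 = 2 ∧ Equiv.Perm.sign π = -1) ∨
        (π 0 = 0 ∧ π 1 = 2 ∧ π 2 = 1 ∧ Equiv.Perm.sign π = -1) ∨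
        (π 0 = 2 ∧ π 1 = 1 ∧ π 2 = 0 ∧ Equiv.Perm.sign π = -1) := by
      decide
    intro π
    unfold del
    rcases hcases π with ⟨h0, h1, h2, h3⟩ | ⟨h0, h1, h2, h3⟩ | ⟨h0, h1, h2, h3⟩ |
      ⟨h0, h1, h2, h3⟩ | ⟨h0, h1, h2, h3⟩ | ⟨h0, h1, h2, h3⟩ <;>
    · rw [h0, h1, h2, h3]
      push_cast
      ring
  rw [← h (permHom σ), permHom_spec, permHom_spec, permHom_spec]
  unfold del
  rw [map_mul, map_mul, map_sub, map_sub, map_sub]

end Pool.Agent.H4.S2P
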