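import Pool.Agent.SL3.Defs

/-!
# Definitions for mod `p` modularity, specialised to `G = SL_2^I` (`I` a finite index set)

The dual group of `SL_2^I` is `PGL_2^I`. A character `x` of the diagonal torus of `SL_2^I` is
written as `x : I → Fin 2 → ℤ`, standing for
`(diag(t_{i,0}, t_{i,1}))_i ↦ ∏_i t_{i,0}^{x i 0} t_{i,1}^{x i 1}`; two such tuples give the same
character iff for every `i` they differ by a constant. The cocharacter `x^∨` of the dual torus is
`t ↦ (diag(t^{x i 0}, t^{x i 1}))_i` in `PGL_2^I`. The Borel subgroups are the upper triangular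
ones.

The absolute Galois group `GQ` of `ℚ`, complex conjugations, the mod `p` cyclotomic character
`omega`, places (`LiesOver`) and inertia groups (`inertia`) are those of `Pool.Agent.SL3.Defs`.
-/

open scoped TensorProduct
open Pool.Agent.SL3 (Qbar GQ IsComplexConj omega LiesOver inertia)

namespace Pool.Agent.H4.S2P

/-! ## The Galois side -/

/-- The group of `k`-points of `PGL_2`: `GL_2(k)` modulo its centre. -/
abbrev PGL2 (k : Type) [Field k] : Type := Matrix.ProjGenLinGroup (Fin 2) k

section Adjoint

variable (k : Type) [Field k]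

/-- The scalar matrices, as a subspace of `M_2(k)`. -/
def scalars2 : Submodule k (Matrix (Fin 2) (Fin 2) k) := Submodule.span k {1}

/-- The Lie algebra of `PGL_2` over `k`: `M_2(k)` modulo scalar matrices. -/
abbrev pgl2 : Type := Matrix (Fin 2) (Fin 2) k ⧸ scalars2 k

variable {k}

/-- Conjugation `X ↦ g X g⁻¹` on `M_2(k)`. -/
def conjMat2 (g : GL (Fin 2) k) : Matrix (Fin 2) (Fin 2) k →ₗ[k] Matrix (Fin 2) (Fin 2) k where
  toFun X := g.1 * X * (g⁻¹).1
  map_add' X Y := by rw [mul_add, add_mul]
  map_smul' a X := by rw [mul_smul_comm, smul_mul_assoc]; rfl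

theorem conjMat2_apply (g : GL (Fin 2) k) (X : Matrix (Fin 2) (Fin 2) k) :
    conjMat2 g X = g.1 * X * (g⁻¹).1 := rfl

theorem conjMat2_one_mat (g : GL (Fin 2) k) : conjMat2 g 1 = 1 := by
  rw [conjMat2_apply, mul_one, ← Units.val_mul, mul_inv_cancel, Units.val_one]

theorem scalars2_le (g : GL (Fin 2) k) : scalars2 k ≤ (scalars2 k).comap (conjMat2 g) := by
  unfold scalars2
  rw [Submodule.span_le, Set.singleton_subset_iff, SetLike.mem_coe, Submodule.mem_comap,
    conjMat2_one_mat]
  exact Submodule.mem_span_singleton_self 1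

/-- The adjoint action of `GL_2(k)` on the Lie algebra of `PGL_2`. -/
def adGL2 : GL (Fin 2) k →* Module.End k (pgl2 k) where
  toFun g := (scalars2 k).mapQ (scalars2 k) (conjMat2 g) (scalars2_le g)
  map_one' := by
    ext X
    simp [conjMat2_apply]
  map_mul' g h := by
    ext X
    simp [conjMat2_apply, mul_assoc]

theorem adGL2_apply (g : GL (Fin 2) k) :
    adGL2 g = (scalars2 k).mapQ (scalars2 k) (conjMat2 g) (scalars2_le g) := rfl

theorem adGL2_center (z : GL (Fin 2) k) (hz : z ∈ Subgroup.center (GL (Fin 2) k)) :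
    adGL2 z = 1 := by
  rw [adGL2_apply]
  have hz' := hz
  rw [Matrix.GeneralLinearGroup.mem_center_iff_val_mem_range_scalar] at hz'
  obtain ⟨a, ha⟩ := hz'
  have h : conjMat2 z = LinearMap.id := by
    apply LinearMap.ext
    intro X
    rw [conjMat2_apply, ← ha, LinearMap.id_apply,
      (Matrix.scalar_commute a (fun r => Commute.all a r) X).eq, mul_assoc, ha, ← Units.val_mul,
      mul_inv_cancel, Units.val_one, mul_one]
  ext X
  simp [h]

/-- The adjoint representation of `PGL_2(k)` on its Lie algebra. -/
def Ad2 : PGL2 k →* Module.End k (pgl2 k) :=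
  QuotientGroup.lift (Subgroup.center (GL (Fin 2) k)) adGL2 adGL2_center

/-- The adjoint representation of `PGL_2(k)^I` on its Lie algebra, the product of the Lie
algebras of the factors. -/
def AdI (I : Type) : (I → PGL2 k) →* Module.End k (I → pgl2 k) where
  toFun g := LinearMap.pi fun i => (Ad2 (g i)).comp (LinearMap.proj i)
  map_one' := by
    apply LinearMap.ext
    intro X
    funext i
    rw [LinearMap.pi_apply, Pi.one_apply, map_one]
    rfl
  map_mul' g h := by
    apply LinearMap.ext
    intro X
    funext i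
    rw [LinearMap.pi_apply, Pi.mul_apply, map_mul]
    rfl

end Adjoint

section Conditions

variable {I : Type} {k : Type} [Field k]

/-- `r` is continuous, for the Krull topology and the discrete topology. -/
def IsContinuous (r : GQ →* (I → PGL2 k)) : Prop :=
  ∀ s : Set (I → PGL2 k), IsOpen (r ⁻¹' s)

/-- `r` is odd: for every complex conjugation `c`, the trace of `Ad(r(c))` on the Lie algebra of
`PGL_2^I` is `rank(G) - 2 rank(K) = |I| - 2 |I|`, for `G = SL_2^I` and `K = SO(2)^I` (an equality
of elements of `k`). -/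
def IsOdd [Fintype I] (r : GQ →* (I → PGL2 k)) : Prop :=
  ∀ c : GQ, IsComplexConj c →
    LinearMap.trace k (I → pgl2 k) (AdI I (r c)) = (Fintype.card I : k) - 2 * (Fintype.card I : k)

/-- The matrix `b` is upper triangular. -/
def IsUpper (b : GL (Fin 2) k) : Prop := ∀ i j : Fin 2, j < i → b.1 i j = 0

variable (p : ℕ) [Fact p.Prime] [CharP k p]

/-- `r` is nearly ordinary of type `x` (at `p`): for every place `A` of `Qbar` over `p`, some
conjugate of `r` restricted to the decomposition group takes values in the upper triangular Borel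
subgroup of `PGL_2(k)^I`, and its projection to the torus is `x^∨ ∘ ω` on the inertia group. -/
def NearlyOrdinary (x : I → Fin 2 → ℤ) (r : GQ →* (I → PGL2 k)) : Prop :=
  ∀ A : ValuationSubring Qbar, LiesOver A p → ∃ g : I → PGL2 k,
    (∀ σ ∈ A.decompositionSubgroup ℚ, ∀ i, ∃ b : GL (Fin 2) k, IsUpper b ∧
      Matrix.ProjGenLinGroup.mk b = (g * r σ * g⁻¹) i) ∧
    (∀ σ ∈ inertia A, ∀ i, ∃ b : GL (Fin 2) k, IsUpper b ∧
      Matrix.ProjGenLinGroup.mk b = (g * r σ * g⁻¹) i ∧
      ∀ j, b.1 j j = ((omega p k σ ^ x i j : kˣ) : k))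

/-- `r` is unramified at the prime `l`. -/
def UnramifiedAt (l : ℕ) (r : GQ →* (I → PGL2 k)) : Prop :=
  ∀ A : ValuationSubring Qbar, LiesOver A l → ∀ σ ∈ inertia A, r σ = 1

/-- Every component of `r` is absolutely irreducible: for every `i` and every extension field `K`
of `k`, no line in `K²` is stable under the image of the `i`-th component of `r` (so that the
image of this component is contained in no Borel subgroup of `PGL_2(K)`). -/
def FactorwiseIrreducible (r : GQ →* (I → PGL2 k)) : Prop :=
  ∀ (i : I) (K : Type) [Field K] [Algebra k K] (v : Fin 2 → K), v ≠ 0 →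
    ∃ (σ : GQ) (b : GL (Fin 2) k), Matrix.ProjGenLinGroup.mk b = r σ i ∧
      ¬ ∃ a : K, (b.1.map (algebraMap k K)).mulVec v = a • v

end Conditions

/-! ## The automorphic side -/

/-- The group `SL_2(R)^I`. -/
abbrev SL2I (I : Type) (R : Type*) [CommRing R] : Type _ := I → Matrix.SpecialLinearGroup (Fin 2) R

/-- The map `SL_2(ℤ)^I → SL_2(R)^I`. -/
def redSL2 (I : Type) (R : Type*) [CommRing R] : SL2I I ℤ →* SL2I I R where
  toFun g i := Matrix.SpecialLinearGroup.map (Int.castRingHom R) (g i)
  map_one' := by
    funext i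
    rw [Pi.one_apply, map_one]
    rfl
  map_mul' g h := by
    funext i
    rw [Pi.mul_apply, map_mul]
    rfl

/-- The weight `x` is strongly regular: it pairs to at least `2` with all simple coroots. -/
def StronglyRegular {I : Type} (x : I → Fin 2 → ℤ) : Prop := ∀ i, 2 ≤ x i 0 - x i 1

/-- The half-sum `ρ` of the positive roots of `SL_2^I`, as the character
`(diag(t_i, t_i⁻¹))_i ↦ ∏_i t_i` of the diagonal torus. -/
def rho (I : Type) : I → Fin 2 → ℤ := fun _ => ![1, 0]

section Representations

variable {I : Type} [Fintype I] {V : Type*} [AddCommGroup V] [Module ℚ V]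
  (ρ : Representation ℚ (SL2I I ℚ) V)

/-- Matrix coefficients are polynomial functions of the entries of the matrices. -/
def PolyCoeff : Prop :=
  ∀ (f : V →ₗ[ℚ] ℚ) (x : V), ∃ P : MvPolynomial (I × Fin 2 × Fin 2) ℚ, ∀ g : SL2I I ℚ,
    f (ρ g x) = MvPolynomial.eval (fun t => g t.1 t.2.1 t.2.2) P

/-- `ρ` is (the action of the group of rational points on) an irreducible algebraic
representation of `SL_2^I` over `ℚ` of highest weight `lam`: it is finite dimensional, its matrix
coefficients are polynomials in the entries, it has no proper nonzero invariant subspace,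
and it contains a nonzero vector on which (tuples of) upper triangular matrices act through
`lam`. -/
structure IsIrrepOfHighestWeight (lam : I → Fin 2 → ℤ) : Prop where
  finite : FiniteDimensional ℚ V
  algebraic : PolyCoeff ρ
  irreducible : ρ.IsIrreducible
  highest : ∃ v : V, v ≠ 0 ∧ ∀ b : SL2I I ℚ, (∀ i, b i 1 0 = 0) →
    ρ b v = (∏ i, ∏ j, b i j j ^ lam i j) • v

/-- The subgroup `L` of `V` is stable under `SL_2(ℤ)^I`. -/
def LatStable (L : Submodule ℤ V) : Prop := ∀ g : SL2I I ℤ, ∀ x ∈ L, ρ (redSL2 I ℚ g) x ∈ L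

variable {ρ}

/-- The action of `SL_2(ℤ)^I` on a stable lattice. -/
def latAct {L : Submodule ℤ V} (hL : LatStable ρ L) : Representation ℤ (SL2I I ℤ) L where
  toFun g := ((ρ (redSL2 I ℚ g)).restrictScalars ℤ).restrict (hL g)
  map_one' := by
    ext1 x
    apply Subtype.ext
    change ρ (redSL2 I ℚ 1) (x : V) = x
    rw [map_one, map_one]
    rfl
  map_mul' g h := by
    ext1 x
    apply Subtype.ext
    change ρ (redSL2 I ℚ (g * h)) (x : V) = ρ (redSL2 I ℚ g) (ρ (redSL2 I ℚ h) (x : V))
    rw [map_mul, map_mul]
    rfl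

/-- The representation of `SL_2(ℤ)^I` on `k ⊗ L`, for a stable lattice `L`. -/
noncomputable def latRep (k : Type*) [CommRing k] {L : Submodule ℤ V} (hL : LatStable ρ L) :
    Representation k (SL2I I ℤ) (k ⊗[ℤ] L) where
  toFun g := (latAct hL g).baseChange k
  map_one' := by
    rw [map_one]
    exact LinearMap.baseChange_id
  map_mul' g h := by
    rw [map_mul]
    exact LinearMap.baseChange_comp _ _

end Representations

end Pool.Agent.H4.S2P
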