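import Pool.Agent.H4.S2P.SymRep

/-!
# The representation on multihomogeneous polynomials is irreducible of highest weight `(n,0)`;
the integral polynomials form a stable lattice
-/

open MvPolynomial

namespace Pool.Agent.H4.S2P

variable {I : Type} [Fintype I]

theorem hv_ne (R : Type) [Field R] (n : ℕ) : hv I R n ≠ 0 := by
  unfold hv
  exact Finset.prod_ne_zero_iff.mpr fun i _ => pow_ne_zero _ (X_ne_zero _)

theorem mem_of_functional {W : Submodule ℚ (MvPolynomial (I × Fin 2) ℚ)}
    {y : MvPolynomial (I × Fin 2) ℚ}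
    (h : ∀ F : MvPolynomial (I × Fin 2) ℚ →ₗ[ℚ] ℚ, (∀ w ∈ W, F w = 0) → F y = 0) : y ∈ W := by
  by_contra hy
  obtain ⟨F, hF, hFW⟩ := Submodule.exists_le_ker_of_notMem hy
  exact hF (h F fun w hw => hFW hw)

theorem symRep_submodule (n : ℕ) (U : Submodule ℚ (VR I ℚ n))
    (hU : ∀ g, ∀ x ∈ U, symRep I ℚ n g x ∈ U) : U = ⊥ ∨ U = ⊤ := by
  by_cases hbot : U = ⊥
  · exact Or.inl hbot
  right
  obtain ⟨x, hxU, hx0⟩ := (Submodule.ne_bot_iff U).mp hbot
  let W : Submodule ℚ (MvPolynomial (I × Fin 2) ℚ) := U.map (VR I ℚ n).subtype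
  have hx0' : x.1 ≠ 0 := fun h => hx0 (Subtype.ext h)
  have hh : hv I ℚ n ∈ W := by
    apply mem_of_functional
    intro F hF
    apply functional_hv (n := n) (x := x.1) ((mem_weightedHomogeneousSubmodule ℚ _ _ _).mp x.2) hx0'
    intro g
    exact hF _ ⟨symRep I ℚ n g x, hU g x hxU, rfl⟩
  obtain ⟨y, hyU, hy⟩ := hh
  have hmono : ∀ d : I × Fin 2 →₀ ℕ, Finsupp.weight (wt I) d = (fun _ => n) →
      (monomial d 1 : MvPolynomial (I × Fin 2) ℚ) ∈ W := by
    intro d hd
    apply mem_of_functional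
    intro F hF
    apply functional_zero F ?_ hd
    intro t
    rw [← subst_lowU]
    refine hF _ ⟨symRep I ℚ n (lowU t) y, hU _ y hyU, ?_⟩
    change subst (fun i => (lowU t i).1) y.1 = _
    rw [show y.1 = hv I ℚ n from hy]
  rw [Submodule.eq_top_iff']
  intro z
  have hz : z.1 ∈ W := by
    rw [z.1.as_sum]
    apply Submodule.sum_mem
    intro d hd
    have h1 : (monomial d (coeff d z.1) : MvPolynomial (I × Fin 2) ℚ)
        = coeff d z.1 • monomial d 1 := by
      rw [smul_monomial, smul_eq_mul, mul_one]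
    rw [h1]
    apply Submodule.smul_mem
    apply hmono
    exact (mem_weightedHomogeneousSubmodule ℚ _ _ _).mp z.2 (mem_support_iff.mp hd)
  obtain ⟨z', hz'U, hz'⟩ := hz
  have : z' = z := Subtype.ext hz'
  rwa [← this]

theorem symRep_irreducible (n : ℕ) : (symRep I ℚ n).IsIrreducible := by
  have hnt : Nontrivial (Subrepresentation (symRep I ℚ n)) := by
    refine ⟨⊥, ⊤, fun heq => ?_⟩
    have h1 : (⊥ : Submodule ℚ (VR I ℚ n)) = ⊤ := congrArg Subrepresentation.toSubmodule heq
    have h2 : (⟨hv I ℚ n, hv_homog ℚ n⟩ : VR I ℚ n) ∈ (⊥ : Submodule ℚ (VR I ℚ n)) := by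
      rw [h1]
      exact Submodule.mem_top
    rw [Submodule.mem_bot] at h2
    exact hv_ne ℚ n (congrArg Subtype.val h2)
  refine ⟨fun U => ?_⟩
  rcases symRep_submodule n U.toSubmodule (fun g x hx => U.apply_mem_toSubmodule g hx) with h1 | h1
  · left
    exact Subrepresentation.toSubmodule_injective h1
  · right
    exact Subrepresentation.toSubmodule_injective h1

theorem symRep_isIrrep (n : ℕ) :
    IsIrrepOfHighestWeight (symRep I ℚ n) (fun _ => ![(n : ℤ), 0]) where
  finite := finite_VR ℚ n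
  algebraic := by
    intro f x
    obtain ⟨F, hF⟩ := LinearMap.exists_extend f
    obtain ⟨P, hP⟩ := poly_coeff F x.1
    refine ⟨P, fun g => ?_⟩
    have h1 : f (symRep I ℚ n g x) = F (symRep I ℚ n g x).1 := by
      rw [← hF]
      rfl
    rw [h1, symRep_coe, hP]
  irreducible := symRep_irreducible n
  highest := by
    refine ⟨⟨hv I ℚ n, hv_homog ℚ n⟩, fun h => hv_ne ℚ n (congrArg Subtype.val h), ?_⟩
    intro b hb
    apply Subtype.ext
    change subst (fun i => (b i).1) (hv I ℚ n) = (∏ i, ∏ j, b i j j ^ (![(n : ℤ), 0] j)) • hv I ℚ n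
    have h1 : (∏ i, ∏ j, b i j j ^ (![(n : ℤ), 0] j)) = ∏ i, (b i 0 0) ^ n := by
      refine Finset.prod_congr rfl fun i _ => ?_
      rw [Fin.prod_univ_two]
      simp
    rw [h1, smul_eq_C_mul, map_prod]
    unfold hv
    rw [map_prod, ← Finset.prod_mul_distrib]
    refine Finset.prod_congr rfl fun i _ => ?_
    have h2 : (b i).1 1 0 = 0 := hb i
    rw [map_pow, subst_X, C_pow, ← mul_pow]
    congr 1
    change C ((b i).1 0 0) * X (i, 0) + C ((b i).1 1 0) * X (i, 1) = C ((b i).1 0 0) * X (i, 0)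
    rw [h2, C_0, zero_mul, add_zero]

/-- The map from integral to rational multihomogeneous polynomials. -/
noncomputable def castV (n : ℕ) : VR I ℤ n →ₗ[ℤ] VR I ℚ n where
  toFun p := ⟨map (Int.castRingHom ℚ) p.1, by
    rw [mem_weightedHomogeneousSubmodule]
    intro d hd
    rw [coeff_map] at hd
    exact (mem_weightedHomogeneousSubmodule ℤ _ _ _).mp p.2 (fun h => hd (by rw [h, map_zero]))⟩
  map_add' p q := Subtype.ext (map_add _ _ _)
  map_smul' m p := by
    apply Subtype.ext
    change map (Int.castRingHom ℚ) (m • p.1) = m • map (Int.castRingHom ℚ) p.1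
    rw [zsmul_eq_mul, zsmul_eq_mul, map_mul, map_intCast]

theorem castV_stable (n : ℕ) : LatStable (symRep I ℚ n) (LinearMap.range (castV (I := I) n)) := by
  rintro g _ ⟨p, rfl⟩
  refine ⟨symRep I ℤ n g p, ?_⟩
  apply Subtype.ext
  change map (Int.castRingHom ℚ) (subst (fun i => (g i).1) p.1)
    = subst (fun i => (redSL2 I ℚ g i).1) (map (Int.castRingHom ℚ) p.1)
  rw [map_subst]
  rfl

theorem castV_lattice (n : ℕ) : Submodule.IsLattice ℚ (LinearMap.range (castV (I := I) n)) := by
  have := finite_VR (I := I) ℤ n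
  refine ⟨?_, ?_⟩
  · rw [← Submodule.map_top]
    exact Submodule.FG.map _ Module.Finite.fg_top
  · rw [Submodule.eq_top_iff']
    intro z
    have hz : z = ∑ d ∈ z.1.support.attach, coeff d.1 z.1 •
        (⟨monomial d.1 1, by
          rw [mem_weightedHomogeneousSubmodule]
          exact isWeightedHomogeneous_monomial _ _ _
            ((mem_weightedHomogeneousSubmodule ℚ _ _ _).mp z.2 (mem_support_iff.mp d.2))⟩ :
          VR I ℚ n) := by
      apply Subtype.ext
      rw [AddSubmonoidClass.coe_finset_sum]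
      conv_lhs => rw [z.1.as_sum, ← Finset.sum_attach]
      refine Finset.sum_congr rfl fun d _ => ?_
      change monomial d.1 (coeff d.1 z.1) = coeff d.1 z.1 • monomial d.1 1
      rw [smul_monomial, smul_eq_mul, mul_one]
    rw [hz]
    apply Submodule.sum_mem
    intro d _
    apply Submodule.smul_mem
    apply Submodule.subset_span
    refine ⟨⟨monomial d.1 1, ?_⟩, ?_⟩
    · rw [mem_weightedHomogeneousSubmodule]
      exact isWeightedHomogeneous_monomial _ _ _
        ((mem_weightedHomogeneousSubmodule ℚ _ _ _).mp z.2 (mem_support_iff.mp d.2))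
    · apply Subtype.ext
      change map (Int.castRingHom ℚ) (monomial d.1 1) = monomial d.1 1
      rw [map_monomial, map_one]

end Pool.Agent.H4.S2P
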