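import Pool.Agent.H4.S2P.Irred
import Pool.Agent.H4.S2P.SymFin

/-!
# Assembly
-/

open Pool.Agent.SL3 (Qbar GQ IsComplexConj omega cyc LiesOver inertia)

namespace Pool.Agent.H4.S2P

theorem omega_zpow (k : Type) [Field k] [CharP k 229] {a : ℕ} (ha : a % 228 = 114) (σ : GQ) :
    omega 229 k σ ^ (a : ℤ) = omega 229 k σ ^ (114 : ℤ) := by
  have h1 : cyc 229 σ ^ 228 = 1 := ZMod.units_pow_card_sub_one_eq_one 229 (cyc 229 σ)
  have h2 : omega 229 k σ ^ 228 = 1 := by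
    rw [omega, MonoidHom.comp_apply, ← map_pow, h1, map_one]
  have h3 : a = 228 * (a / 228) + 114 := by
    have := Nat.div_add_mod a 228
    omega
  have h4 : omega 229 k σ ^ a = omega 229 k σ ^ 114 := by
    rw [h3, pow_add, pow_mul, h2, one_pow, one_mul]
  have h5 : ((114 : ℕ) : ℤ) = 114 := rfl
  rw [zpow_natCast, h4, ← h5, zpow_natCast]

theorem rI_nearlyOrdinary' (k : Type) [Field k] [CharP k 229] (I : Type) {a : ℕ}
    (ha : a % 228 = 114) : NearlyOrdinary 229 (fun (_ : I) => ![(a : ℤ), 0]) (rI k I) := by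
  intro A hA
  obtain ⟨g, h1, h2⟩ := rI_nearlyOrdinary k I A hA
  refine ⟨g, h1, fun σ hσ i => ?_⟩
  obtain ⟨b, hb, hb', hb''⟩ := h2 σ hσ i
  refine ⟨b, hb, hb', fun j => ?_⟩
  rw [hb'' j]
  fin_cases j
  · change ((omega 229 k σ ^ (114 : ℤ) : kˣ) : k) = ((omega 229 k σ ^ (a : ℤ) : kˣ) : k)
    rw [omega_zpow k ha]
  · rfl

theorem weight_sub {m a : ℕ} (ha : 1 ≤ a) :
    ((fun _ => ![(a : ℤ), 0]) - rho (Fin m) : Fin m → Fin 2 → ℤ)
      = fun _ => ![((a - 1 : ℕ) : ℤ), 0] := by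
  funext i j
  rw [Pi.sub_apply, Pi.sub_apply]
  unfold rho
  fin_cases j
  · change (a : ℤ) - 1 = ((a - 1 : ℕ) : ℤ)
    rw [Nat.cast_sub ha, Nat.cast_one]
  · change (0 : ℤ) - 0 = 0
    rfl

end Pool.Agent.H4.S2P
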