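import Pool.Agent.H4.S2P.Defs

/-!
# The standard representation of `S_3` on sum-zero vectors, in the basis `e₀ - e₂`, `e₁ - e₂`
-/

namespace Pool.Agent.H4.S2P

/-- The matrix of the permutation `π` of `{0,1,2}` on the sum-zero vectors, in the basis
`e₀ - e₂`, `e₁ - e₂`. -/
def stdMat (π : Equiv.Perm (Fin 3)) : Matrix (Fin 2) (Fin 2) ℤ :=
  !![(if π 0 = 0 then 1 else 0) - (if π 2 = 0 then 1 else 0),
     (if π 1 = 0 then 1 else 0) - (if π 2 = 0 then 1 else 0);
     (if π 0 = 1 then 1 else 0) - (if π 2 = 1 then 1 else 0),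
     (if π 1 = 1 then 1 else 0) - (if π 2 = 1 then 1 else 0)]

theorem stdMat_one : stdMat 1 = 1 := by decide

theorem stdMat_mul : ∀ π τ : Equiv.Perm (Fin 3), stdMat (π * τ) = stdMat π * stdMat τ := by
  decide

/-- The standard representation of `S_3` over `ℤ`. -/
def stdHom : Equiv.Perm (Fin 3) →* GL (Fin 2) ℤ where
  toFun π := ⟨stdMat π, stdMat π⁻¹, by rw [← stdMat_mul, mul_inv_cancel, stdMat_one],
    by rw [← stdMat_mul, inv_mul_cancel, stdMat_one]⟩
  map_one' := Units.ext stdMat_one
  map_mul' π τ := Units.ext (stdMat_mul π τ)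

/-- The standard representation of `S_3` over a commutative ring. -/
def stdGL (k : Type) [CommRing k] : Equiv.Perm (Fin 3) →* GL (Fin 2) k :=
  (Matrix.GeneralLinearGroup.map (Int.castRingHom k)).comp stdHom

theorem stdGL_val (k : Type) [CommRing k] (π : Equiv.Perm (Fin 3)) :
    (stdGL k π).1 = (stdMat π).map (Int.castRingHom k) := rfl

end Pool.Agent.H4.S2P
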