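import Pool.Agent.H4.S2P.Gauss
import Pool.Agent.H4.S2P.Std

/-!
# The representation `r = (ρ,…,ρ)` into `PGL_2(k)^I`: continuity and oddness

`ρ` is the action of the Galois group on the roots of `X³ - 4X - 1`, followed by the standard
representation of `S_3`. All roots are real, so `ρ(c) = 1` for every complex conjugation `c`.
-/

open Pool.Agent.SL3 (Qbar GQ IsComplexConj omega cyc LiesOver inertia)

namespace Pool.Agent.H4.S2P

section

variable (k : Type) [Field k]

/-- The representation of the Galois group in `PGL_2(k)` given by the cubic. -/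
noncomputable def rho1 : GQ →* PGL2 k :=
  Matrix.ProjGenLinGroup.mk.comp ((stdGL k).comp permHom)

theorem rho1_apply (σ : GQ) :
    rho1 k σ = Matrix.ProjGenLinGroup.mk (stdGL k (permHom σ)) := rfl

/-- The diagonal representation `(ρ,…,ρ)`. -/
noncomputable def rI (I : Type) : GQ →* (I → PGL2 k) := Pi.monoidHom fun _ => rho1 k

theorem rI_apply (I : Type) (σ : GQ) (i : I) : rI k I σ i = rho1 k σ := rfl

theorem rI_eq_one {I : Type} {σ : GQ} (h : permHom σ = 1) : rI k I σ = 1 := by
  funext i
  rw [rI_apply, rho1_apply, h, map_one, map_one]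
  rfl

theorem rI_continuous (I : Type) : IsContinuous (rI k I) := by
  intro s
  have hopen : IsOpen ((rI k I).ker : Set GQ) := by
    refine Subgroup.isOpen_mono ?_ isOpen_ker_permHom
    intro σ hσ
    exact rI_eq_one k hσ
  have : (rI k I) ⁻¹' s = ⋃ σ ∈ (rI k I) ⁻¹' s,
      (fun τ => σ * τ) '' ((rI k I).ker : Set GQ) := by
    ext τ
    simp only [Set.mem_preimage, Set.mem_iUnion, Set.mem_image, SetLike.mem_coe, exists_prop]
    constructor
    · intro h
      exact ⟨τ, h, 1, one_mem _, mul_one τ⟩
    · rintro ⟨σ, hσ, κ, hκ, rfl⟩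
      rw [MonoidHom.mem_ker] at hκ
      rw [map_mul, hκ, mul_one]
      exact hσ
  rw [this]
  refine isOpen_biUnion (fun σ _ => ?_)
  exact isOpenMap_mul_left σ _ hopen

end

/-- A complex root of `z³ - 4z - 1` is real. -/
theorem real_of_root {z : ℂ} (hz : z ^ 3 - 4 * z - 1 = 0) : z.im = 0 := by
  have hre := congrArg Complex.re hz
  have him := congrArg Complex.im hz
  have h3 : z ^ 3 = z * z * z := by ring
  rw [h3] at hre him
  simp only [Complex.sub_re, Complex.mul_re, Complex.mul_im, Complex.one_re, Complex.zero_re,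
    Complex.re_ofNat, Complex.im_ofNat] at hre
  simp only [Complex.sub_im, Complex.mul_re, Complex.mul_im, Complex.one_im, Complex.zero_im,
    Complex.re_ofNat, Complex.im_ofNat] at him
  generalize hx : z.re = x at *
  generalize hy : z.im = y at *
  by_contra hy0
  have h1 : y ^ 2 = 3 * x ^ 2 - 4 := by
    have h2 : y * (3 * x ^ 2 - 4 - y ^ 2) = 0 := by linear_combination him
    rcases mul_eq_zero.mp h2 with h | h
    · exact absurd h hy0
    · linarith
  have h2 : 8 * x ^ 3 - 8 * x + 1 = 0 := by linear_combination (-1 : ℝ) * hre - 3 * x * h1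
  have h4 : 0 < y ^ 2 := by positivity
  have h5 : 4 < 3 * x ^ 2 := by linarith
  -- `(8 x (x² - 1))² = 1`
  have h6 : 64 * x ^ 2 * (x ^ 2 - 1) ^ 2 = 1 := by
    have h7 : 8 * x * (x ^ 2 - 1) = -1 := by linear_combination h2
    calc 64 * x ^ 2 * (x ^ 2 - 1) ^ 2 = (8 * x * (x ^ 2 - 1)) ^ 2 := by ring
      _ = 1 := by rw [h7]; norm_num
  set t := x ^ 2 with ht
  have h8 : 1 / 3 < t - 1 := by linarith
  have h9 : 1 / 9 < (t - 1) ^ 2 := by nlinarith
  nlinarith

theorem permHom_complexConj {c : GQ} (hc : IsComplexConj c) : permHom c = 1 := by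
  rw [permHom_eq_one_iff]
  intro i
  obtain ⟨ι, hι⟩ := hc
  apply ι.injective
  rw [hι]
  have h1 : (ι (rt i)) ^ 3 - 4 * ι (rt i) - 1 = 0 := by
    have h := congrArg ι (rt_root i)
    rw [map_sub, map_sub, map_mul, map_pow, map_zero, map_one, map_ofNat] at h
    exact h
  exact Complex.conj_eq_iff_im.mpr (real_of_root h1)

section Trace

variable (k : Type) [Field k]

theorem finrank_pgl2 : Module.finrank k (pgl2 k) = 3 := by
  have h1 : Module.finrank k (scalars2 k) = 1 := finrank_span_singleton one_ne_zero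
  have h2 := Submodule.finrank_quotient_add_finrank (scalars2 k)
  rw [h1, Module.finrank_matrix] at h2
  simp at h2
  exact h2

theorem finrank_pi_pgl2 (I : Type) [Fintype I] :
    Module.finrank k (I → pgl2 k) = Fintype.card I * 3 := by
  rw [Module.finrank_pi_fintype, Finset.sum_const, finrank_pgl2, Finset.card_univ, smul_eq_mul]

/-- `r` is odd if the number of factors is divisible by `p = 229`. -/
theorem rI_odd [CharP k 229] (I : Type) [Fintype I] (hI : 229 ∣ Fintype.card I) :
    IsOdd (rI k I) := by
  intro c hc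
  rw [rI_eq_one k (permHom_complexConj hc), map_one, LinearMap.trace_one, finrank_pi_pgl2]
  have h : (Fintype.card I : k) = 0 := (CharP.cast_eq_zero_iff k 229 _).mpr hI
  rw [Nat.cast_mul, h]
  ring

end Trace

end Pool.Agent.H4.S2P
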