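import Pool.Agent.H4.S2P.Cubic

/-!
# The sign of the permutation of the roots is `ω^114`

The square root of the discriminant `229` is, up to sign, the quadratic Gauss sum modulo `229`.
-/

open Pool.Agent.SL3 (Qbar GQ IsComplexConj omega cyc LiesOver inertia)

namespace Pool.Agent.H4.S2P

instance fact229 : Fact (Nat.Prime 229) := ⟨by norm_num⟩

/-- The quadratic character modulo `229`, with values in `Qbar`. -/
noncomputable def chi : MulChar (ZMod 229) Qbar :=
  (quadraticChar (ZMod 229)).ringHomComp (Int.castRingHom Qbar)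

theorem chi_apply (a : ZMod 229) : chi a = ((quadraticChar (ZMod 229) a : ℤ) : Qbar) := rfl

theorem ringChar_ne_two : ringChar (ZMod 229) ≠ 2 := by
  rw [ZMod.ringChar_zmod_n]
  norm_num

theorem chi_ne_one : chi ≠ 1 := by
  unfold chi
  exact MulChar.ringHomComp_ne_one_iff (Int.castRingHom Qbar).injective_int |>.mpr
    (quadraticChar_ne_one ringChar_ne_two)

theorem chi_quad : chi.IsQuadratic := (quadraticChar_isQuadratic (ZMod 229)).comp _

theorem chi_neg_one : chi (-1) = 1 := by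
  have h : (-1 : ZMod 229) = 107 ^ 2 := by decide
  rw [chi_apply, h, quadraticChar_sq_one' (by decide)]
  norm_num

theorem exists_gauss : ∃ G : Qbar, G ^ 2 = 229 ∧ ∀ σ : GQ, σ G = chi (cyc 229 σ : ZMod 229) * G := by
  obtain ⟨ζ, hζ⟩ := Pool.Agent.SL3.exists_prim 229
  have hζ1 : ζ ^ 229 = 1 := hζ.pow_eq_one
  let ψ : AddChar (ZMod 229) Qbar := AddChar.zmodChar 229 hζ1
  have hψ : ψ.IsPrimitive := AddChar.zmodChar_primitive_of_primitive_root 229 hζ
  refine ⟨gaussSum chi ψ, ?_, ?_⟩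
  · rw [gaussSum_sq chi_ne_one chi_quad hψ, chi_neg_one, ZMod.card]
    norm_num
  · intro σ
    have h1 : σ (gaussSum chi ψ) = gaussSum chi (ψ.mulShift (cyc 229 σ : (ZMod 229)ˣ)) := by
      unfold gaussSum
      rw [map_sum]
      refine Finset.sum_congr rfl fun a _ => ?_
      rw [map_mul]
      congr 1
      · rw [chi_apply, map_intCast]
      · rw [AddChar.mulShift_apply]
        change σ (AddChar.zmodChar 229 hζ1 a) = AddChar.zmodChar 229 hζ1 _
        rw [AddChar.zmodChar_apply, map_pow, Pool.Agent.SL3.cyc_spec 229 σ hζ1,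
          AddChar.zmodChar_apply, ← pow_mul, ZMod.val_mul]
        exact pow_eq_pow_mod _ hζ1
    have h2 : chi (cyc 229 σ : ZMod 229) * chi (cyc 229 σ : ZMod 229) = 1 := by
      rw [chi_apply, ← Int.cast_mul, ← pow_two,
        quadraticChar_sq_one (Units.ne_zero (cyc 229 σ))]
      norm_num
    have h3 := gaussSum_mulShift chi ψ (cyc 229 σ)
    rw [h1]
    calc gaussSum chi (ψ.mulShift (cyc 229 σ : (ZMod 229)ˣ))
        = (chi (cyc 229 σ : ZMod 229) * chi (cyc 229 σ : ZMod 229))
          * gaussSum chi (ψ.mulShift (cyc 229 σ : (ZMod 229)ˣ)) := by rw [h2, one_mul]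
      _ = _ := by rw [mul_assoc, h3]

theorem sign_eq_quadraticChar (σ : GQ) :
    (Equiv.Perm.sign (permHom σ) : ℤ) = quadraticChar (ZMod 229) (cyc 229 σ : ZMod 229) := by
  obtain ⟨G, hG, hσ⟩ := exists_gauss
  have h1 : del ^ 2 = G ^ 2 := by rw [del_sq, hG]
  have h2 : σ del = chi (cyc 229 σ : ZMod 229) * del := by
    rcases sq_eq_sq_iff_eq_or_eq_neg.mp h1 with h | h
    · rw [h]
      exact hσ σ
    · rw [h, map_neg, hσ σ, mul_neg]
  rw [del_sign, chi_apply] at h2
  have h3 := mul_right_cancel₀ del_ne h2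
  exact_mod_cast h3

theorem sign_eq_omega (k : Type) [Field k] [CharP k 229] (σ : GQ) :
    (((Equiv.Perm.sign (permHom σ) : ℤ)) : k) = ((omega 229 k σ ^ (114 : ℤ) : kˣ) : k) := by
  have h1 := quadraticChar_eq_pow_of_char_ne_two' ringChar_ne_two (cyc 229 σ : ZMod 229)
  rw [ZMod.card] at h1
  have h2 : ((quadraticChar (ZMod 229) (cyc 229 σ : ZMod 229) : ℤ) : k)
      = ZMod.castHom (dvd_refl 229) k ((cyc 229 σ : ZMod 229) ^ (229 / 2)) := by
    rw [← h1, map_intCast]
  rw [sign_eq_quadraticChar, h2, map_pow]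
  have h3 : (omega 229 k σ ^ (114 : ℤ) : kˣ) = omega 229 k σ ^ (114 : ℕ) := by
    exact_mod_cast zpow_natCast (omega 229 k σ) 114
  rw [h3, Units.val_pow_eq_pow_val]
  rfl

end Pool.Agent.H4.S2P
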