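import Pool.Agent.H4.S2P.Near

/-!
# The image of the Galois group on the roots is `S_3`, and `ρ` is absolutely irreducible
-/

open Polynomial
open Pool.Agent.SL3 (Qbar GQ)

namespace Pool.Agent.H4.S2P

theorem isGalois_Qbar : IsGalois ℚ Qbar := by
  have halg : Algebra.IsAlgebraic ℚ Qbar := AlgebraicClosure.isAlgebraic ℚ
  have hac : IsAlgClosure ℚ Qbar := ⟨inferInstance, halg⟩
  have _ : Normal ℚ Qbar := IsAlgClosure.normal ℚ Qbar
  exact ⟨⟩

theorem exists_move {x : Qbar} (hx : ∀ q : ℚ, algebraMap ℚ Qbar q ≠ x) : ∃ σ : GQ, σ x ≠ x := by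
  by_contra h
  push Not at h
  have _ := isGalois_Qbar
  obtain ⟨q, hq⟩ := (IntermediateField.mem_bot).mp ((InfiniteGalois.mem_bot_iff_fixed x).mpr h)
  exact hx q hq

theorem rt_irrational (i : Fin 3) (q : ℚ) : algebraMap ℚ Qbar q ≠ rt i := by
  intro h
  have h1 : q ^ 3 - 4 * q - 1 = 0 := by
    apply (algebraMap ℚ Qbar).injective
    rw [map_sub, map_sub, map_mul, map_pow, map_zero, map_one, map_ofNat, h]
    exact rt_root i
  have hm : (X ^ 3 - C 4 * X - C 1 : ℤ[X]).Monic := by monicity!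
  have hr : aeval q (X ^ 3 - C 4 * X - C 1 : ℤ[X]) = 0 := by
    rw [map_sub, map_sub, map_mul, map_pow, aeval_X, aeval_C, aeval_C]
    simpa using h1
  obtain ⟨n, hn, hdvd⟩ := exists_integer_of_is_root_of_monic (A := ℤ) (K := ℚ) hm hr
  have hc : (X ^ 3 - C 4 * X - C 1 : ℤ[X]).coeff 0 = -1 := by simp
  rw [hc] at hdvd
  have hu : IsUnit n := isUnit_of_dvd_unit hdvd (by norm_num)
  rcases Int.isUnit_iff.mp hu with h2 | h2
  · rw [hn, h2] at h1
    norm_num at h1
  · rw [hn, h2] at h1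
    norm_num at h1

theorem del_irrational (q : ℚ) : algebraMap ℚ Qbar q ≠ del := by
  intro h
  have h1 : q ^ 2 - 229 = 0 := by
    apply (algebraMap ℚ Qbar).injective
    rw [map_sub, map_pow, map_zero, map_ofNat, h, del_sq, sub_self]
  have hm : (X ^ 2 - C 229 : ℤ[X]).Monic := by monicity!
  have hr : aeval q (X ^ 2 - C 229 : ℤ[X]) = 0 := by
    rw [map_sub, map_pow, aeval_X, aeval_C]
    simpa using h1
  obtain ⟨n, hn, _⟩ := exists_integer_of_is_root_of_monic (A := ℤ) (K := ℚ) hm hr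
  rw [hn] at h1
  have h2 : n ^ 2 = 229 := by
    have h3 : ((n : ℚ)) ^ 2 = 229 := by
      have : (algebraMap ℤ ℚ n) ^ 2 = 229 := by linear_combination h1
      simpa using this
    exact_mod_cast h3
  have h4 : n < 16 := by nlinarith
  have h5 : -16 < n := by nlinarith
  interval_cases n <;> omega

set_option maxRecDepth 100000 in
theorem perm_words : ∀ (t h : Equiv.Perm (Fin 3)) (b : Fin 3), Equiv.Perm.sign t = -1 →
    t b = b → h b ≠ b → (Equiv.swap 0 1 = t ∨ Equiv.swap 0 1 = h * t * h⁻¹ ∨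
      Equiv.swap 0 1 = t * (h * t * h⁻¹) * t) ∧
    (Equiv.swap 1 2 = t ∨ Equiv.swap 1 2 = h * t * h⁻¹ ∨
      Equiv.swap 1 2 = t * (h * t * h⁻¹) * t) := by decide

theorem exists_swaps : (∃ σ : GQ, permHom σ = Equiv.swap 0 1) ∧
    (∃ σ : GQ, permHom σ = Equiv.swap 1 2) := by
  obtain ⟨σ, hσ⟩ := exists_move del_irrational
  have hsign : Equiv.Perm.sign (permHom σ) = -1 := by
    rcases Int.units_eq_one_or (Equiv.Perm.sign (permHom σ)) with h | h
    · exfalso
      apply hσ
      rw [del_sign, h]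
      push_cast
      rw [one_mul]
    · exact h
  have hfix : ∀ t : Equiv.Perm (Fin 3), Equiv.Perm.sign t = -1 → ∃ b, t b = b := by decide
  obtain ⟨b, hb⟩ := hfix _ hsign
  obtain ⟨τ, hτ⟩ := exists_move (rt_irrational b)
  have hτb : permHom τ b ≠ b := by
    intro h
    apply hτ
    rw [← permHom_spec, h]
  obtain ⟨h1, h2⟩ := perm_words _ _ b hsign hb hτb
  constructor
  · rcases h1 with h | h | h
    · exact ⟨σ, h.symm⟩
    · exact ⟨τ * σ * τ⁻¹, by rw [map_mul, map_mul, map_inv, h]⟩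
    · exact ⟨σ * (τ * σ * τ⁻¹) * σ, by rw [map_mul, map_mul, map_mul, map_mul, map_inv, h]⟩
  · rcases h2 with h | h | h
    · exact ⟨σ, h.symm⟩
    · exact ⟨τ * σ * τ⁻¹, by rw [map_mul, map_mul, map_inv, h]⟩
    · exact ⟨σ * (τ * σ * τ⁻¹) * σ, by rw [map_mul, map_mul, map_mul, map_mul, map_inv, h]⟩

theorem stdMat_swap01 : stdMat (Equiv.swap 0 1) = !![0, 1; 1, 0] := by decide

theorem stdMat_swap12 : stdMat (Equiv.swap 1 2) = !![1, 0; -1, -1] := by decide

theorem rI_irreducible (k : Type) [Field k] [CharP k 229] (I : Type) :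
    FactorwiseIrreducible (rI k I) := by
  intro i K _ _ v hv
  have h3 : (3 : K) ≠ 0 := by
    intro h
    have h1 : (3 : k) = 0 := by
      apply (algebraMap k K).injective
      rw [map_ofNat, map_zero]
      exact h
    have h4 := (CharP.cast_eq_zero_iff k 229 3).mp (by exact_mod_cast h1)
    norm_num at h4
  obtain ⟨⟨σ, hσ⟩, ⟨τ, hτ⟩⟩ := exists_swaps
  by_contra hcon
  push Not at hcon
  obtain ⟨a, ha⟩ := hcon σ (stdGL k (permHom σ)) rfl
  obtain ⟨a', ha'⟩ := hcon τ (stdGL k (permHom τ)) rfl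
  rw [stdGL_val, hσ, stdMat_swap01] at ha
  rw [stdGL_val, hτ, stdMat_swap12] at ha'
  have e0 := congrFun ha 0
  have e1 := congrFun ha 1
  have f0 := congrFun ha' 0
  have f1 := congrFun ha' 1
  simp [Matrix.mulVec, dotProduct, Fin.sum_univ_two] at e0 e1 f0 f1
  by_cases h0 : v 0 = 0
  · apply hv
    funext j
    fin_cases j
    · exact h0
    · change v 1 = 0
      rw [e0, h0, mul_zero]
  · have ha1 : a' = 1 := by
      have : (a' - 1) * v 0 = 0 := by linear_combination -f0
      rcases mul_eq_zero.mp this with h | h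
      · exact sub_eq_zero.mp h
      · exact absurd h h0
    rw [ha1, one_mul] at f1
    have h01 : v 0 = -2 * v 1 := by linear_combination -f1
    have h1 : v 1 ≠ 0 := by
      intro h
      apply h0
      rw [h01, h, mul_zero]
    have ha2 : a = -2 := by
      have : (a + 2) * v 1 = 0 := by linear_combination h01 - e1
      rcases mul_eq_zero.mp this with h | h
      · linear_combination h
      · exact absurd h h1
    have h5 : (3 : K) * v 1 = 0 := by
      rw [ha2] at e0
      linear_combination (-1 : K) * e0 + 2 * h01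
    rcases mul_eq_zero.mp h5 with h | h
    · exact h3 h
    · exact h1 h

end Pool.Agent.H4.S2P
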