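import Pool.Agent.H4.S2P.GalRep

/-!
# The representation `r = (ρ,…,ρ)` at the finite places

Unramified outside `229`; at `229` the decomposition groups have order at most two and fix the
root which is congruent to `58`.
-/

open scoped Pointwise
open Pool.Agent.SL3 (Qbar GQ IsComplexConj omega cyc LiesOver inertia residue_inertia inertia_le)

namespace Pool.Agent.H4.S2P

section Val

variable (A : ValuationSubring Qbar)

theorem val_int (m : ℤ) : A.valuation (m : Qbar) ≤ 1 := by
  rw [ValuationSubring.valuation_le_one_iff]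
  exact intCast_mem A.toSubring m

theorem val_not_both {a b : ℤ} (hab : IsCoprime a b) (ha : A.valuation (a : Qbar) < 1)
    (hb : A.valuation (b : Qbar) < 1) : False := by
  obtain ⟨u, v, huv⟩ := hab
  have h9 : (u : Qbar) * (a : Qbar) + (v : Qbar) * (b : Qbar) = 1 := by
    exact_mod_cast congrArg (Int.cast (R := Qbar)) huv
  have h10 : A.valuation ((u : Qbar) * (a : Qbar) + (v : Qbar) * (b : Qbar)) < 1 := by
    apply Valuation.map_add_lt
    · rw [map_mul]
      calc A.valuation (u : Qbar) * A.valuation (a : Qbar) ≤ 1 * A.valuation (a : Qbar) :=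
            mul_le_mul_left (val_int A u) _
        _ < 1 := by rw [one_mul]; exact ha
    · rw [map_mul]
      calc A.valuation (v : Qbar) * A.valuation (b : Qbar) ≤ 1 * A.valuation (b : Qbar) :=
            mul_le_mul_left (val_int A v) _
        _ < 1 := by rw [one_mul]; exact hb
  rw [h9, map_one] at h10
  exact lt_irrefl _ h10

theorem rt_le (i : Fin 3) : A.valuation (rt i) ≤ 1 := by
  by_contra h
  push Not at h
  have h1 : rt i ^ 3 = 4 * rt i + 1 := by linear_combination rt_root i
  have h2 : A.valuation (4 * rt i + 1) ≤ A.valuation (rt i) := by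
    apply Valuation.map_add_le
    · rw [map_mul]
      have h4 : A.valuation (4 : Qbar) ≤ 1 := by
        have := val_int A 4
        exact_mod_cast this
      calc A.valuation (4 : Qbar) * A.valuation (rt i) ≤ 1 * A.valuation (rt i) :=
            mul_le_mul_left h4 _
        _ = _ := one_mul _
    · rw [map_one]
      exact h.le
  rw [← h1, map_pow] at h2
  have h3 : A.valuation (rt i) < A.valuation (rt i) ^ 3 := by
    calc A.valuation (rt i) = A.valuation (rt i) ^ 1 := (pow_one _).symm
      _ < A.valuation (rt i) ^ 3 := pow_lt_pow_right₀ h (by norm_num)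
  exact absurd h2 (not_le.mpr h3)

theorem sub_le (i j : Fin 3) : A.valuation (rt i - rt j) ≤ 1 := by
  apply (Valuation.map_sub _ _ _).trans
  exact max_le (rt_le A i) (rt_le A j)

theorem mul3_lt {x y z : Qbar} (hx : A.valuation x ≤ 1) (hy : A.valuation y ≤ 1)
    (hz : A.valuation z ≤ 1) (h : A.valuation x < 1 ∨ A.valuation y < 1 ∨ A.valuation z < 1) :
    A.valuation (x * y * z) < 1 := by
  rw [map_mul, map_mul]
  rcases h with h | h | h
  · calc A.valuation x * A.valuation y * A.valuation z ≤ A.valuation x * 1 * 1 := by gcongr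
      _ < 1 := by rw [mul_one, mul_one]; exact h
  · calc A.valuation x * A.valuation y * A.valuation z ≤ 1 * A.valuation y * 1 := by gcongr
      _ < 1 := by rw [mul_one, one_mul]; exact h
  · calc A.valuation x * A.valuation y * A.valuation z ≤ 1 * 1 * A.valuation z := by gcongr
      _ < 1 := by rw [one_mul, one_mul]; exact h

theorem del_lt {i j : Fin 3} (hij : i ≠ j) (h : A.valuation (rt i - rt j) < 1) :
    A.valuation del < 1 := by
  have h' : A.valuation (rt j - rt i) < 1 := by rw [Valuation.map_sub_swap]; exact h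
  unfold del
  apply mul3_lt A (sub_le A 0 1) (sub_le A 1 2) (sub_le A 0 2)
  fin_cases i <;> fin_cases j
  all_goals first
    | exact absurd rfl hij
    | exact Or.inl h
    | exact Or.inl h'
    | exact Or.inr (Or.inl h)
    | exact Or.inr (Or.inl h')
    | exact Or.inr (Or.inr h)
    | exact Or.inr (Or.inr h')

theorem v229_lt {i j : Fin 3} (hij : i ≠ j) (h : A.valuation (rt i - rt j) < 1) :
    A.valuation ((229 : ℤ) : Qbar) < 1 := by
  have h1 := del_lt A hij h
  have h2 : ((229 : ℤ) : Qbar) = del ^ 2 := by rw [del_sq]; norm_num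
  rw [h2, map_pow]
  exact pow_lt_one₀ zero_le h1 two_ne_zero

end Val

theorem permHom_inertia {l : ℕ} (hl : l.Prime) (hl229 : l ≠ 229) {A : ValuationSubring Qbar}
    (hA : LiesOver A l) {σ : GQ} (hσ : σ ∈ inertia A) : permHom σ = 1 := by
  apply Equiv.ext
  intro i
  rw [Equiv.Perm.one_apply]
  by_contra hne
  have h1 : A.valuation (σ (rt i) - rt i) < 1 :=
    residue_inertia hσ ((ValuationSubring.valuation_le_one_iff A _).mp (rt_le A i))
  rw [← permHom_spec] at h1
  have h2 := v229_lt A hne h1
  have h3 : A.valuation ((l : ℤ) : Qbar) < 1 := by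
    unfold LiesOver at hA
    exact_mod_cast hA
  have hcop : IsCoprime (l : ℤ) (229 : ℤ) := by
    have : Nat.Coprime l 229 := (Nat.coprime_primes hl (by norm_num)).mpr hl229
    exact_mod_cast Nat.isCoprime_iff_coprime.mpr this
  exact val_not_both A hcop h3 h2

theorem rI_unramified (k : Type) [Field k] (I : Type) {l : ℕ} (hl : l.Prime) (hl229 : l ≠ 229) :
    UnramifiedAt l (rI k I) := by
  intro A hA σ hσ
  exact rI_eq_one k (permHom_inertia hl hl229 hA hσ)

section At229

variable {A : ValuationSubring Qbar} (hA : LiesOver A 229)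

include hA in
theorem v229 : A.valuation ((229 : ℤ) : Qbar) < 1 := by
  unfold LiesOver at hA
  exact_mod_cast hA

include hA in
theorem rt_mod (i : Fin 3) :
    A.valuation (rt i + 29) < 1 ∨ A.valuation (rt i - 58) < 1 := by
  have h1 : (rt i + 29) * (rt i + 29) * (rt i - 58)
      = ((229 : ℤ) : Qbar) * (-(11 * rt i + 213)) := by
    push_cast
    linear_combination rt_root i
  have h2 : A.valuation (-(11 * rt i + 213)) ≤ 1 := by
    rw [Valuation.map_neg]
    apply Valuation.map_add_le
    · rw [map_mul]
      have h11 : A.valuation (11 : Qbar) ≤ 1 := by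
        have := val_int A 11
        exact_mod_cast this
      calc A.valuation (11 : Qbar) * A.valuation (rt i) ≤ 1 * 1 :=
            mul_le_mul' h11 (rt_le A i)
        _ = 1 := one_mul 1
    · have := val_int A 213
      exact_mod_cast this
  have h3 : A.valuation ((rt i + 29) * (rt i + 29) * (rt i - 58)) < 1 := by
    rw [h1, map_mul]
    calc A.valuation ((229 : ℤ) : Qbar) * A.valuation (-(11 * rt i + 213))
        ≤ A.valuation ((229 : ℤ) : Qbar) * 1 := mul_le_mul_right h2 _
      _ < 1 := by rw [mul_one]; exact v229 hA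
  by_contra hcon
  push Not at hcon
  obtain ⟨ha, hb⟩ := hcon
  rw [map_mul, map_mul] at h3
  have h4 : 1 ≤ A.valuation (rt i + 29) * A.valuation (rt i + 29) * A.valuation (rt i - 58) := by
    calc (1 : A.ValueGroup) = 1 * 1 * 1 := by rw [mul_one, mul_one]
      _ ≤ _ := mul_le_mul' (mul_le_mul' ha ha) hb
  exact absurd h3 (not_lt.mpr h4)

include hA in
/-- Integers coprime to `229` are units at places over `229`. -/
theorem unit_of_coprime {m : ℤ} (hm : IsCoprime m 229) : ¬ A.valuation (m : Qbar) < 1 :=
  fun h => val_not_both A hm h (v229 hA)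

include hA in
theorem exists_58 : ∃ b : Fin 3, A.valuation (rt b - 58) < 1 := by
  by_contra hcon
  push Not at hcon
  have h1 : ∀ i, A.valuation (rt i + 29) < 1 := fun i =>
    (rt_mod hA i).resolve_right (not_lt.mpr (hcon i))
  apply unit_of_coprime hA (m := 87) (by norm_num)
  have h2 : ((87 : ℤ) : Qbar) = (rt 0 + 29) + (rt 1 + 29) + (rt 2 + 29) := by
    push_cast
    linear_combination -rt_e1
  rw [h2]
  exact Valuation.map_add_lt _ (Valuation.map_add_lt _ (h1 0) (h1 1)) (h1 2)

include hA in
theorem unique_58 {i j : Fin 3} (hi : A.valuation (rt i - 58) < 1)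
    (hj : A.valuation (rt j - 58) < 1) : i = j := by
  by_contra hij
  -- the third root
  obtain ⟨m, hm⟩ : ∃ m : Fin 3, rt m = -rt i - rt j := by
    have h0 := rt_e1
    have hc : ∀ i j : Fin 3, i ≠ j → (i = 0 ∧ j = 1) ∨ (i = 1 ∧ j = 0) ∨ (i = 0 ∧ j = 2) ∨
        (i = 2 ∧ j = 0) ∨ (i = 1 ∧ j = 2) ∨ (i = 2 ∧ j = 1) := by decide
    rcases hc i j hij with ⟨rfl, rfl⟩ | ⟨rfl, rfl⟩ | ⟨rfl, rfl⟩ | ⟨rfl, rfl⟩ | ⟨rfl, rfl⟩ |
      ⟨rfl, rfl⟩
    · exact ⟨2, by linear_combination h0⟩
    · exact ⟨2, by linear_combination h0⟩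
    · exact ⟨1, by linear_combination h0⟩
    · exact ⟨1, by linear_combination h0⟩
    · exact ⟨0, by linear_combination h0⟩
    · exact ⟨0, by linear_combination h0⟩
  rcases rt_mod hA m with h | h
  · apply unit_of_coprime hA (m := -87) (by norm_num)
    have h2 : ((-87 : ℤ) : Qbar) = (rt m + 29) + (rt i - 58) + (rt j - 58) := by
      rw [hm]
      push_cast
      ring
    rw [h2]
    exact Valuation.map_add_lt _ (Valuation.map_add_lt _ h hi) hj
  · apply unit_of_coprime hA (m := -174) (by norm_num)
    have h2 : ((-174 : ℤ) : Qbar) = (rt m - 58) + (rt i - 58) + (rt j - 58) := by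
      rw [hm]
      push_cast
      ring
    rw [h2]
    exact Valuation.map_add_lt _ (Valuation.map_add_lt _ h hi) hj

/-- Elements of the decomposition group preserve the maximal ideal. -/
theorem val_lt_of_decomp {σ : GQ} (hσ : σ ∈ A.decompositionSubgroup ℚ) {y : Qbar}
    (hy : A.valuation y < 1) : A.valuation (σ y) < 1 := by
  have hstab : σ • A = A := hσ
  by_contra hcon
  push Not at hcon
  have hy0 : σ y ≠ 0 := by
    intro h0
    rw [h0, map_zero] at hcon
    exact absurd hcon (not_le.mpr zero_lt_one)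
  have hinv : (σ y)⁻¹ ∈ A := by
    rw [← ValuationSubring.valuation_le_one_iff, map_inv₀]
    exact inv_le_one_of_one_le₀ hcon
  have h1 : (σ y)⁻¹ ∈ σ • A := by rw [hstab]; exact hinv
  obtain ⟨w, hw, hw'⟩ := (ValuationSubring.mem_smul_pointwise_iff_exists _ _ _).mp h1
  have h2 : σ w = σ y⁻¹ := by
    rw [map_inv₀]
    exact hw'
  have h3 : w = y⁻¹ := σ.injective h2
  rw [h3, ← ValuationSubring.valuation_le_one_iff, map_inv₀] at hw
  have hy1 : y ≠ 0 := by
    rintro rfl
    exact hy0 (map_zero σ)
  have h4 : 1 < (A.valuation y)⁻¹ := by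
    rw [one_lt_inv₀ (zero_lt_iff.mpr ((Valuation.ne_zero_iff _).mpr hy1))]
    exact hy
  exact absurd hw (not_le.mpr h4)

include hA in
/-- The decomposition group fixes the root congruent to `58`. -/
theorem decomp_fix {b : Fin 3} (hb : A.valuation (rt b - 58) < 1) {σ : GQ}
    (hσ : σ ∈ A.decompositionSubgroup ℚ) : permHom σ b = b := by
  have h1 := val_lt_of_decomp hσ hb
  rw [map_sub, map_ofNat, ← permHom_spec] at h1
  exact unique_58 hA h1 hb

end At229

end Pool.Agent.H4.S2P
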