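import Pool.Agent.H4.S2P.Local

/-!
# `r = (ρ,…,ρ)` is nearly ordinary of type `(114,0)` at `229` and factorwise irreducible
-/

open scoped Pointwise
open Pool.Agent.SL3 (Qbar GQ IsComplexConj omega cyc LiesOver inertia inertia_le)

namespace Pool.Agent.H4.S2P

/-- The base change diagonalising the transposition fixing `b`. -/
def gMat : Fin 3 → Matrix (Fin 2) (Fin 2) ℤ
  | 0 => !![1, 2; 1, 0]
  | 1 => !![2, 1; 0, 1]
  | 2 => !![1, -1; 1, 1]

/-- The matrix `diag(sign π, 1)`. -/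
def dMat (π : Equiv.Perm (Fin 3)) : Matrix (Fin 2) (Fin 2) ℤ :=
  !![(Equiv.Perm.sign π : ℤ), 0; 0, 1]

theorem gMat_stdMat : ∀ (b : Fin 3) (π : Equiv.Perm (Fin 3)), π b = b →
    gMat b * stdMat π = dMat π * gMat b := by
  decide

theorem gMat_det : ∀ b : Fin 3, (gMat b).det = 2 ∨ (gMat b).det = -2 := by
  decide

section

variable {k : Type} [Field k]

theorem det_ne (h2 : (2 : k) ≠ 0) (b : Fin 3) : ((gMat b).map (Int.castRingHom k)).det ≠ 0 := by
  have h : ((gMat b).map (Int.castRingHom k)).det = ((gMat b).det : k) := by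
    rw [← RingHom.mapMatrix_apply, ← RingHom.map_det]
    rfl
  rw [h]
  rcases gMat_det b with h1 | h1
  · rw [h1]
    exact_mod_cast h2
  · rw [h1]
    push_cast
    exact neg_ne_zero.mpr h2

/-- The base change over `k`. -/
noncomputable def gGL (h2 : (2 : k) ≠ 0) (b : Fin 3) : GL (Fin 2) k :=
  Matrix.GeneralLinearGroup.mkOfDetNeZero _ (det_ne h2 b)

/-- `diag(sign π, 1)` over `k`. -/
noncomputable def dGL (k : Type) [Field k] (π : Equiv.Perm (Fin 3)) : GL (Fin 2) k :=
  Matrix.GeneralLinearGroup.mkOfDetNeZero ((dMat π).map (Int.castRingHom k)) (by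
    have h : ((dMat π).map (Int.castRingHom k)).det = ((dMat π).det : k) := by
      rw [← RingHom.mapMatrix_apply, ← RingHom.map_det]
      rfl
    have h1 : ∀ π : Equiv.Perm (Fin 3), (dMat π).det = 1 ∨ (dMat π).det = -1 := by decide
    rw [h]
    rcases h1 π with h1 | h1
    · rw [h1, Int.cast_one]
      exact one_ne_zero
    · rw [h1, Int.cast_neg, Int.cast_one]
      exact neg_ne_zero.mpr one_ne_zero)

theorem dGL_val (π : Equiv.Perm (Fin 3)) :
    (dGL k π).1 = (dMat π).map (Int.castRingHom k) := rfl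

theorem gGL_conj (h2 : (2 : k) ≠ 0) {b : Fin 3} {π : Equiv.Perm (Fin 3)} (hπ : π b = b) :
    gGL h2 b * stdGL k π * (gGL h2 b)⁻¹ = dGL k π := by
  rw [mul_inv_eq_iff_eq_mul]
  apply Units.ext
  change (gMat b).map (Int.castRingHom k) * (stdMat π).map (Int.castRingHom k)
    = (dMat π).map (Int.castRingHom k) * (gMat b).map (Int.castRingHom k)
  rw [← Matrix.map_mul, ← Matrix.map_mul, gMat_stdMat b π hπ]

theorem dGL_upper (π : Equiv.Perm (Fin 3)) : IsUpper (dGL k π) := by
  intro i j hij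
  rw [dGL_val]
  fin_cases i <;> fin_cases j
  · exact absurd hij (lt_irrefl _)
  · exact absurd hij (by decide)
  · simp [dMat]
  · exact absurd hij (lt_irrefl _)

end

theorem rI_nearlyOrdinary (k : Type) [Field k] [CharP k 229] (I : Type) :
    NearlyOrdinary 229 (fun (_ : I) => ![114, 0]) (rI k I) := by
  have h2 : (2 : k) ≠ 0 := by
    intro h
    have h3 := (CharP.cast_eq_zero_iff k 229 2).mp (by exact_mod_cast h)
    norm_num at h3
  intro A hA
  obtain ⟨b, hb⟩ := exists_58 hA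
  have key : ∀ σ ∈ A.decompositionSubgroup ℚ, ∀ i : I,
      Matrix.ProjGenLinGroup.mk (dGL k (permHom σ))
        = ((fun _ => Matrix.ProjGenLinGroup.mk (gGL h2 b) : I → PGL2 k) * rI k I σ *
          (fun _ => Matrix.ProjGenLinGroup.mk (gGL h2 b) : I → PGL2 k)⁻¹) i := by
    intro σ hσ i
    rw [Pi.mul_apply, Pi.mul_apply, Pi.inv_apply, rI_apply, rho1_apply, ← map_mul, ← map_inv,
      ← map_mul, gGL_conj h2 (decomp_fix hA hb hσ)]
  refine ⟨fun _ => Matrix.ProjGenLinGroup.mk (gGL h2 b), fun σ hσ i =>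
    ⟨dGL k (permHom σ), dGL_upper _, key σ hσ i⟩, fun σ hσ i =>
    ⟨dGL k (permHom σ), dGL_upper _, key σ (inertia_le A hσ) i, ?_⟩⟩
  intro j
  fin_cases j
  · change (dGL k (permHom σ)).1 0 0 = ((omega 229 k σ ^ (114 : ℤ) : kˣ) : k)
    rw [dGL_val, ← sign_eq_omega]
    simp [dMat]
  · change (dGL k (permHom σ)).1 1 1 = ((omega 229 k σ ^ (0 : ℤ) : kˣ) : k)
    rw [dGL_val, zpow_zero]
    simp [dMat]

end Pool.Agent.H4.S2P
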