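import Mathlib

/-!
# Mod `p` modularity for `SL_2^m`: self-contained definitions

The dual group of `SL_2^m` is `PGL_2^m`, and a homomorphism into `PGL_2(k)^m` is a tuple
`r = (r_1,…,r_m)` of homomorphisms into `PGL_2(k)`. A weight `x` is written as
`x : Fin m → Fin 2 → ℤ`, standing for the character
`(diag(t_{i,0}, t_{i,1}))_i ↦ ∏_i t_{i,0}^{x i 0} t_{i,1}^{x i 1}` of the diagonal torus.
-/

namespace Pool.Agent.H4.S2P.SC

section Galois

variable {m : ℕ} {k : Type} [Field k]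

/-- `r` is continuous, for the Krull topology and the discrete topology. -/
def IsContinuous (r : Gal(AlgebraicClosure ℚ/ℚ) →* Matrix.ProjGenLinGroup (Fin 2) k) : Prop :=
  ∀ s : Set (Matrix.ProjGenLinGroup (Fin 2) k), IsOpen (r ⁻¹' s)

/-- `c` is a complex conjugation. -/
def IsConj (c : Gal(AlgebraicClosure ℚ/ℚ)) : Prop :=
  ∃ ι : AlgebraicClosure ℚ →+* ℂ, ∀ z, ι (c z) = starRingEnd ℂ (ι z)

/-- `t` is the trace of the map induced by conjugation by `g` on the quotient `q : M_2(k) → L`. -/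
def IsTraceAd {L : Type} [AddCommGroup L] [Module k L] (q : Matrix (Fin 2) (Fin 2) k →ₗ[k] L)
    (g : GL (Fin 2) k) (t : k) : Prop :=
  ∃ T : L →ₗ[k] L, (∀ X, T (q X) = q (g.1 * X * g⁻¹.1)) ∧ LinearMap.trace k L T = t

/-- `r` is odd: for every complex conjugation `c` the trace of `Ad(r(c))` on the Lie algebra
`⨁_i M_2(k) / k` of `PGL_2^m` is `rank(G) - 2 rank(K) = m - 2 m`, in `k`. -/
def IsOdd (r : Fin m → Gal(AlgebraicClosure ℚ/ℚ) →* Matrix.ProjGenLinGroup (Fin 2) k) : Prop :=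
  ∀ c, IsConj c → ∃ t : Fin m → k, ∑ i, t i = (m : k) - 2 * (m : k) ∧
    ∀ i, ∃ g : GL (Fin 2) k, Matrix.ProjGenLinGroup.mk g = r i c ∧
      IsTraceAd (Submodule.span k {(1 : Matrix (Fin 2) (Fin 2) k)}).mkQ g (t i)

/-- `σ` is in the decomposition group of the place `A`. -/
def Decomp (A : ValuationSubring (AlgebraicClosure ℚ)) (σ : Gal(AlgebraicClosure ℚ/ℚ)) : Prop :=
  ∀ z, σ z ∈ A ↔ z ∈ A

/-- `σ` is in the inertia group of the place `A`. -/
def Inertia (A : ValuationSubring (AlgebraicClosure ℚ)) (σ : Gal(AlgebraicClosure ℚ/ℚ)) : Prop :=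
  ∀ z ∈ A, σ z - z ∈ A.nonunits

/-- `ω(σ) = u` in `k`, for the cyclotomic character `ω` modulo `p`. -/
def IsOmega (p : ℕ) (σ : Gal(AlgebraicClosure ℚ/ℚ)) (u : k) : Prop :=
  ∃ n : ℕ, (∀ ζ, ζ ^ p = 1 → σ ζ = ζ ^ n) ∧ (n : k) = u

/-- `r` is nearly ordinary of type `x` at `p`: for every place `A` over `p` some conjugate of `r`
is upper triangular on the decomposition group, with diagonal `(ω ^ x 0, ω ^ x 1)` on inertia. -/
def NearlyOrdinary (p : ℕ) (x : Fin 2 → ℤ)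
    (r : Gal(AlgebraicClosure ℚ/ℚ) →* Matrix.ProjGenLinGroup (Fin 2) k) : Prop :=
  ∀ A : ValuationSubring (AlgebraicClosure ℚ), (p : AlgebraicClosure ℚ) ∈ A.nonunits →
    ∃ g, ∀ σ, Decomp A σ → ∃ b : GL (Fin 2) k,
      Matrix.ProjGenLinGroup.mk b = g * r σ * g⁻¹ ∧ b.1 1 0 = 0 ∧
        (Inertia A σ → ∀ u, IsOmega p σ u → ∀ j, b.1 j j = u ^ x j)

/-- `r` is unramified at the prime `l`. -/
def UnramifiedAt (l : ℕ) (r : Gal(AlgebraicClosure ℚ/ℚ) →* Matrix.ProjGenLinGroup (Fin 2) k) :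
    Prop :=
  ∀ A : ValuationSubring (AlgebraicClosure ℚ), (l : AlgebraicClosure ℚ) ∈ A.nonunits →
    ∀ σ, Inertia A σ → r σ = 1

/-- No line of `K^2` is stable under the image of `r`. -/
def NoStableLine (r : Gal(AlgebraicClosure ℚ/ℚ) →* Matrix.ProjGenLinGroup (Fin 2) k)
    (K : Type) [Field K] [Algebra k K] : Prop :=
  ∀ v : Fin 2 → K, v ≠ 0 → ∃ (σ : Gal(AlgebraicClosure ℚ/ℚ)) (b : GL (Fin 2) k),
    Matrix.ProjGenLinGroup.mk b = r σ ∧ ∀ a : K, (b.1.map (algebraMap k K)).mulVec v ≠ a • v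

end Galois

section Rep

variable {m : ℕ} {G H k V M W : Type} [Group G] [Group H] [Field k]
  [AddCommGroup V] [Module ℚ V] [AddCommGroup M] [AddCommGroup W] [Module k W]

/-- `ρ` is an irreducible algebraic representation of `SL_2^m` over `ℚ` of highest weight `lam`. -/
def IsIrrep (lam : Fin m → Fin 2 → ℤ)
    (ρ : Representation ℚ (Fin m → Matrix.SpecialLinearGroup (Fin 2) ℚ) V) : Prop :=
  FiniteDimensional ℚ V ∧ ρ.IsIrreducible ∧
    (∀ (f : V →ₗ[ℚ] ℚ) (v : V), ∃ P : MvPolynomial (Fin m × Fin 2 × Fin 2) ℚ,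
      ∀ g, f (ρ g v) = MvPolynomial.eval (fun t => g t.1 t.2.1 t.2.2) P) ∧
    ∃ v : V, v ≠ 0 ∧ ∀ b, (∀ i, b i 1 0 = 0) → ρ b v = (∏ i, ∏ j, b i j j ^ lam i j) • v

/-- `μ` is the action of `G` on a `G`-stable lattice in `V`, where `G` acts by `ρ ∘ f`. -/
def IsLatticeIn (f : G → H) (μ : Representation ℤ G M) (ρ : Representation ℚ H V) : Prop :=
  Module.Finite ℤ M ∧ ∃ q : M →ₗ[ℤ] V, Function.Injective q ∧
    Submodule.span ℚ (Set.range q) = ⊤ ∧ ∀ g v, q (μ g v) = ρ (f g) (q v)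

/-- `τ` is the representation `k ⊗ M`. -/
def IsReduction (μ : Representation ℤ G M) (τ : Representation k G W) : Prop :=
  ∃ q : M →ₗ[ℤ] W, IsBaseChange k q ∧ ∀ g v, q (μ g v) = τ g (q v)

/-- All cohomology groups of `τ` vanish. -/
def Acyclic (τ : Representation k G W) : Prop :=
  ∀ n, Subsingleton (groupCohomology (Rep.of τ) n)

end Rep

end Pool.Agent.H4.S2P.SC
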