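import Pool.Agent.H4.S2P.SC
import Pool.Agent.H4.S2P.Final

/-!
# Proofs for the self-contained statement
-/

open scoped Pointwise
open Pool.Agent.SL3 (Qbar GQ IsComplexConj omega cyc LiesOver cyc_unique)

namespace Pool.Agent.H4.S2P.SC

/-! ## The Galois side -/

theorem rho1_continuous (k : Type) [Field k] : IsContinuous (rho1 k) := fun s =>
  rI_continuous k (Fin 1) {f | f 0 ∈ s}

theorem liesOver {A : ValuationSubring Qbar} {l : ℕ} (h : (l : Qbar) ∈ A.nonunits) :
    LiesOver A l := (ValuationSubring.mem_nonunits_iff A).mp h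

theorem decomp_mem {A : ValuationSubring Qbar} {σ : GQ} (h : Decomp A σ) :
    σ ∈ A.decompositionSubgroup ℚ := by
  change σ • A = A
  ext z
  rw [ValuationSubring.mem_pointwise_smul_iff_inv_smul_mem]
  have h1 := h (σ⁻¹ z)
  have h2 : σ (σ⁻¹ z) = z := by
    rw [← AlgEquiv.mul_apply, mul_inv_cancel, AlgEquiv.one_apply]
  rw [h2] at h1
  exact h1.symm

theorem permHom_inertia' {l : ℕ} (hl : l.Prime) (hl229 : l ≠ 229) {A : ValuationSubring Qbar}
    (hA : LiesOver A l) {σ : GQ} (hσ : Inertia A σ) : permHom σ = 1 := by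
  apply Equiv.ext
  intro i
  rw [Equiv.Perm.one_apply]
  by_contra hne
  have h1 : A.valuation (σ (rt i) - rt i) < 1 :=
    (ValuationSubring.mem_nonunits_iff A).mp
      (hσ _ ((ValuationSubring.valuation_le_one_iff A _).mp (rt_le A i)))
  rw [← permHom_spec] at h1
  have h2 := v229_lt A hne h1
  have h3 : A.valuation ((l : ℤ) : Qbar) < 1 := by
    unfold LiesOver at hA
    exact_mod_cast hA
  have hcop : IsCoprime (l : ℤ) (229 : ℤ) := by
    have : Nat.Coprime l 229 := (Nat.coprime_primes hl (by norm_num)).mpr hl229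
    exact_mod_cast Nat.isCoprime_iff_coprime.mpr this
  exact val_not_both A hcop h3 h2

theorem rho1_unramified (k : Type) [Field k] {l : ℕ} (hl : l.Prime) (hl229 : l ≠ 229) :
    UnramifiedAt l (rho1 k) := by
  intro A hA σ hσ
  rw [rho1_apply, permHom_inertia' hl hl229 (liesOver hA) hσ, map_one, map_one]

theorem omega_eq {k : Type} [Field k] [CharP k 229] {σ : GQ} {u : k} (h : IsOmega 229 σ u) :
    ((omega 229 k σ : kˣ) : k) = u := by
  obtain ⟨n, hn, rfl⟩ := h
  have h1 : (cyc 229 σ : ZMod 229) = (n : ZMod 229) := by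
    apply cyc_unique
    intro ζ hζ
    rw [hn ζ hζ, ZMod.val_natCast]
    exact pow_eq_pow_mod n hζ
  change ZMod.castHom (dvd_refl 229) k (cyc 229 σ : ZMod 229) = (n : k)
  rw [h1, map_natCast]

theorem rho1_nearlyOrdinary (k : Type) [Field k] [CharP k 229] {a : ℕ} (ha : a % 228 = 114) :
    NearlyOrdinary 229 ![(a : ℤ), 0] (rho1 k) := by
  have h2 : (2 : k) ≠ 0 := by
    intro h
    have h3 := (CharP.cast_eq_zero_iff k 229 2).mp (by exact_mod_cast h)
    norm_num at h3
  intro A hA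
  have hA' := liesOver hA
  obtain ⟨b, hb⟩ := exists_58 hA'
  refine ⟨Matrix.ProjGenLinGroup.mk (gGL h2 b), fun σ hσ => ⟨dGL k (permHom σ), ?_, ?_, ?_⟩⟩
  · rw [rho1_apply, ← map_mul, ← map_inv, ← map_mul,
      gGL_conj h2 (decomp_fix hA' hb (decomp_mem hσ))]
  · rw [dGL_val]
    simp [dMat]
  · intro _ u hu j
    have hu' := omega_eq hu
    fin_cases j
    · change (dGL k (permHom σ)).1 0 0 = u ^ (a : ℤ)
      have h3 := omega_zpow k ha σ
      rw [← hu', ← Units.val_zpow_eq_zpow_val, h3, dGL_val, ← sign_eq_omega]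
      simp [dMat]
    · change (dGL k (permHom σ)).1 1 1 = u ^ (0 : ℤ)
      rw [dGL_val, zpow_zero]
      simp [dMat]

theorem rho1_noStableLine (k : Type) [Field k] [CharP k 229] (K : Type) [Field K] [Algebra k K] :
    NoStableLine (rho1 k) K := by
  intro v hv
  obtain ⟨σ, b, hb, hb'⟩ := rI_irreducible k (Fin 1) 0 K v hv
  exact ⟨σ, b, hb, fun a ha => hb' ⟨a, ha⟩⟩

theorem rho1_odd (k : Type) [Field k] [CharP k 229] {m : ℕ} (hm : 229 ∣ m) :
    IsOdd (fun _ : Fin m => rho1 k) := by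
  intro c hc
  have hc' : permHom c = 1 := permHom_complexConj hc
  have h0 : (m : k) = 0 := (CharP.cast_eq_zero_iff k 229 m).mpr hm
  refine ⟨fun _ => 3, ?_, fun _ => ⟨1, ?_, LinearMap.id, ?_, ?_⟩⟩
  · rw [Finset.sum_const, Finset.card_univ, Fintype.card_fin, nsmul_eq_mul, h0]
    ring
  · rw [rho1_apply, hc', map_one, map_one, map_one]
  · intro X
    rw [LinearMap.id_apply, inv_one, Units.val_one, one_mul, mul_one]
  · have h1 := finrank_pgl2 k
    unfold pgl2 scalars2 at h1
    rw [LinearMap.trace_id, h1]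
    norm_num

/-! ## The automorphic side -/

section

variable {m : ℕ} {V M W : Type} [AddCommGroup V] [Module ℚ V] [AddCommGroup M] [AddCommGroup W]
  {ρ : Representation ℚ (Fin m → Matrix.SpecialLinearGroup (Fin 2) ℚ) V}
  {μ : Representation ℤ (Fin m → Matrix.SpecialLinearGroup (Fin 2) ℤ) M}

theorem isIrrep_iff {lam : Fin m → Fin 2 → ℤ} (h : IsIrrep lam ρ) :
    IsIrrepOfHighestWeight ρ lam := ⟨h.1, h.2.2.1, h.2.1, h.2.2.2⟩

theorem isIrrep_of {lam : Fin m → Fin 2 → ℤ} (h : IsIrrepOfHighestWeight ρ lam) :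
    IsIrrep lam ρ := ⟨h.1, h.3, h.2, h.4⟩

theorem acyclic_of (hm : 0 < m) {lam : Fin m → Fin 2 → ℤ}
    (hodd : ∀ i, Odd (lam i 0 + lam i 1)) (h : IsIrrep lam ρ)
    (hμ : IsLatticeIn (fun g i => Matrix.SpecialLinearGroup.map (Int.castRingHom ℚ) (g i)) μ ρ)
    {k : Type} [Field k] [CharP k 229] [Module k W]
    {τ : Representation k (Fin m → Matrix.SpecialLinearGroup (Fin 2) ℤ) W}
    (hτ : IsReduction μ τ) : Acyclic τ := by
  obtain ⟨_, q, hq, _, hq'⟩ := hμ
  obtain ⟨q', hb, hqτ⟩ := hτ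
  let i₀ : Fin m := ⟨0, hm⟩
  have h1 : ∀ v, μ (zEl i₀ ℤ) v = -v := by
    intro v
    apply hq
    rw [hq', map_neg]
    exact (congrArg (fun g => ρ g (q v)) (redSL2_zEl i₀ ℚ)).trans
      (rho_zEl (isIrrep_iff h) i₀ (hodd i₀) (q v))
  have h2 : τ (zEl i₀ ℤ) = -LinearMap.id := by
    apply hb.algHom_ext
    intro v
    rw [← hqτ, h1, map_neg, LinearMap.neg_apply, LinearMap.id_apply]
  have h3 : (2 : k) ≠ 0 := by
    intro h
    have h3 := (CharP.cast_eq_zero_iff k 229 2).mp (by exact_mod_cast h)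
    norm_num at h3
  intro n
  apply ModuleCat.subsingleton_of_isZero
  refine isZero_of_center (zEl_center i₀ ℤ) (Rep.of τ) (fun w => ?_) (isUnit_iff_ne_zero.mpr h3) n
  change τ (zEl i₀ ℤ) w = -w
  rw [h2, LinearMap.neg_apply, LinearMap.id_apply]

end

theorem castV_injective (m n : ℕ) : Function.Injective (castV (I := Fin m) n) := by
  intro p q h
  apply Subtype.ext
  exact MvPolynomial.map_injective _ (Int.cast_injective (α := ℚ)) (congrArg Subtype.val h)

theorem symRep_lattice (m n : ℕ) :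
    IsLatticeIn (fun g i => Matrix.SpecialLinearGroup.map (Int.castRingHom ℚ) (g i))
      (symRep (Fin m) ℤ n) (symRep (Fin m) ℚ n) := by
  refine ⟨finite_VR ℤ n, castV n, castV_injective m n, ?_, ?_⟩
  · have h := (castV_lattice (I := Fin m) n).span_eq_top
    exact h
  · intro g v
    apply Subtype.ext
    change MvPolynomial.map (Int.castRingHom ℚ) (subst (fun i => (g i).1) v.1)
      = subst (fun i => (redSL2 (Fin m) ℚ g i).1) (MvPolynomial.map (Int.castRingHom ℚ) v.1)
    rw [map_subst]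
    rfl

end Pool.Agent.H4.S2P.SC
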