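import Pool.Agent.H4.S2P.Defs

/-!
# The representation of `SL_2^I` on multihomogeneous polynomials

Polynomials in the variables `X (i, 0)`, `X (i, 1)` (`i ∈ I`), homogeneous of degree `n` in each
pair: the external tensor product of the representations `Sym^n`.
-/

open MvPolynomial

namespace Pool.Agent.H4.S2P

variable {I : Type} [Fintype I]

open Classical in
/-- The multidegree of the variables. -/
noncomputable def wt (I : Type) : I × Fin 2 → (I → ℕ) := fun t => Pi.single t.1 1

theorem weight_wt (d : I × Fin 2 →₀ ℕ) (i : I) :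
    Finsupp.weight (wt I) d i = d (i, 0) + d (i, 1) := by
  classical
  rw [Finsupp.weight_apply,
    Finsupp.sum_fintype d (fun t c => c • wt I t) (fun t => zero_smul ℕ _), Finset.sum_apply,
    Fintype.sum_prod_type, Finset.sum_eq_single i]
  · rw [Fin.sum_univ_two]
    simp [wt]
  · intro j _ hj
    rw [Fin.sum_univ_two]
    simp [wt, Pi.single_apply, Ne.symm hj]
  · intro h
    exact absurd (Finset.mem_univ _) h

theorem weight_iff (n : ℕ) (d : I × Fin 2 →₀ ℕ) :
    Finsupp.weight (wt I) d = (fun _ => n) ↔ ∀ i, d (i, 0) + d (i, 1) = n := by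
  constructor
  · intro h i
    rw [← weight_wt, h]
  · intro h
    funext i
    rw [weight_wt, h]

section Subst

variable {R : Type} [CommRing R]

/-- The substitution `X (i, j) ↦ ∑ l, g_i (l, j) X (i, l)`. -/
noncomputable def subst (g : I → Matrix (Fin 2) (Fin 2) R) :
    MvPolynomial (I × Fin 2) R →ₐ[R] MvPolynomial (I × Fin 2) R :=
  aeval fun t => C (g t.1 0 t.2) * X (t.1, 0) + C (g t.1 1 t.2) * X (t.1, 1)

omit [Fintype I] in
theorem subst_X (g : I → Matrix (Fin 2) (Fin 2) R) (t : I × Fin 2) :
    subst g (X t) = C (g t.1 0 t.2) * X (t.1, 0) + C (g t.1 1 t.2) * X (t.1, 1) := by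
  unfold subst
  rw [aeval_X]

omit [Fintype I] in
theorem subst_one : subst (1 : I → Matrix (Fin 2) (Fin 2) R) = AlgHom.id R _ := by
  apply MvPolynomial.algHom_ext
  rintro ⟨i, j⟩
  rw [subst_X, AlgHom.id_apply]
  have h : ∀ j : Fin 2, C ((1 : Matrix (Fin 2) (Fin 2) R) 0 j) * X (i, 0)
      + C ((1 : Matrix (Fin 2) (Fin 2) R) 1 j) * X (i, 1)
      = (X (i, j) : MvPolynomial (I × Fin 2) R) := by
    rw [Fin.forall_fin_two]
    exact ⟨by simp, by simp⟩
  exact h j

omit [Fintype I] in
theorem subst_mul (g h : I → Matrix (Fin 2) (Fin 2) R) :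
    subst (g * h) = (subst g).comp (subst h) := by
  apply MvPolynomial.algHom_ext
  rintro ⟨i, j⟩
  rw [AlgHom.comp_apply, subst_X, subst_X, map_add, map_mul, map_mul, subst_X, subst_X]
  simp only [Pi.mul_apply, Matrix.mul_apply, Fin.sum_univ_two, algHom_C, algebraMap_eq, C_add,
    C_mul]
  ring

theorem homog_subst_X (g : I → Matrix (Fin 2) (Fin 2) R) (t : I × Fin 2) :
    IsWeightedHomogeneous (wt I) (subst g (X t)) (wt I t) := by
  rw [subst_X]
  exact ((isWeightedHomogeneous_X R (wt I) (t.1, 0)).C_mul _).add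
    ((isWeightedHomogeneous_X R (wt I) (t.1, 1)).C_mul _)

theorem subst_monomial (g : I → Matrix (Fin 2) (Fin 2) R) (d : I × Fin 2 →₀ ℕ) (r : R) :
    subst g (monomial d r) = C r * ∏ t, (subst g (X t)) ^ d t := by
  rw [monomial_eq, map_mul, algHom_C, algebraMap_eq, Finsupp.prod_fintype _ _ (by simp), map_prod]
  simp_rw [map_pow]

theorem homog_subst (g : I → Matrix (Fin 2) (Fin 2) R) {m : I → ℕ}
    {p : MvPolynomial (I × Fin 2) R} (hp : IsWeightedHomogeneous (wt I) p m) :
    IsWeightedHomogeneous (wt I) (subst g p) m := by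
  induction hp using IsWeightedHomogeneous.induction_on with
  | zero => rw [map_zero]; exact isWeightedHomogeneous_zero R _ _
  | add p q hp hq h1 h2 => rw [map_add]; exact h1.add h2
  | monomial d r hr =>
    rw [subst_monomial]
    apply IsWeightedHomogeneous.C_mul
    have h := IsWeightedHomogeneous.prod Finset.univ (fun t => (subst g (X t)) ^ d t)
      (fun t => d t • wt I t) (fun t _ => (homog_subst_X g t).pow (d t))
    have h2 : ∑ t, d t • wt I t = m := by
      rw [← hr, Finsupp.weight_apply,
        Finsupp.sum_fintype d (fun t c => c • wt I t) (fun t => zero_smul ℕ _)]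
    rwa [h2] at h

omit [Fintype I] in
/-- Substitutions and base change. -/
theorem map_subst {S : Type} [CommRing S] (f : R →+* S) (g : I → Matrix (Fin 2) (Fin 2) R)
    (p : MvPolynomial (I × Fin 2) R) :
    map f (subst g p) = subst (fun i => (g i).map f) (map f p) := by
  induction p using MvPolynomial.induction_on with
  | C a => rw [algHom_C, algebraMap_eq, map_C, algHom_C, algebraMap_eq]
  | add p q hp hq => rw [map_add, map_add, hp, hq, map_add, map_add]
  | mul_X p t hp =>
    rw [map_mul, map_mul, hp, map_mul, map_mul, map_X, subst_X, subst_X, map_add, map_mul, map_mul,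
      map_C, map_C, map_X, map_X]
    rfl

end Subst

/-- Every linear functional of `subst g x` is a polynomial in the entries of `g`. -/
theorem poly_coeff (F : MvPolynomial (I × Fin 2) ℚ →ₗ[ℚ] ℚ) (x : MvPolynomial (I × Fin 2) ℚ) :
    ∃ P : MvPolynomial (I × Fin 2 × Fin 2) ℚ, ∀ g : I → Matrix (Fin 2) (Fin 2) ℚ,
      F (subst g x) = eval (fun t => g t.1 t.2.1 t.2.2) P := by
  classical
  let Y : I → Matrix (Fin 2) (Fin 2) (MvPolynomial (I × Fin 2 × Fin 2) ℚ) :=
    fun i l j => X (i, l, j)
  let Φ : MvPolynomial (I × Fin 2) (MvPolynomial (I × Fin 2 × Fin 2) ℚ) :=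
    subst Y (map C x)
  have hΦ : ∀ g : I → Matrix (Fin 2) (Fin 2) ℚ,
      map (eval fun t => g t.1 t.2.1 t.2.2) Φ = subst g x := by
    intro g
    have h1 : (fun i => (Y i).map (eval fun t => g t.1 t.2.1 t.2.2)) = g := by
      funext i
      ext l j
      change eval (fun t : I × Fin 2 × Fin 2 => g t.1 t.2.1 t.2.2) (X (i, l, j)) = g i l j
      rw [eval_X]
    have h2 : (eval fun t : I × Fin 2 × Fin 2 => g t.1 t.2.1 t.2.2).comp C = RingHom.id ℚ := by
      refine RingHom.ext fun a => ?_
      rw [RingHom.comp_apply, eval_C]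
      rfl
    rw [map_subst, h1, map_map, h2, map_id]
  refine ⟨∑ d ∈ Φ.support, coeff d Φ * C (F (monomial d 1)), fun g => ?_⟩
  have hF : ∀ p : MvPolynomial (I × Fin 2) ℚ, p.support ⊆ Φ.support →
      F p = ∑ d ∈ Φ.support, coeff d p * F (monomial d 1) := by
    intro p hp
    conv_lhs => rw [p.as_sum]
    rw [map_sum]
    rw [← Finset.sum_subset hp]
    · refine Finset.sum_congr rfl fun d _ => ?_
      have : (monomial d (coeff d p) : MvPolynomial (I × Fin 2) ℚ)
          = coeff d p • monomial d 1 := by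
        rw [smul_monomial, smul_eq_mul, mul_one]
      rw [this, map_smul, smul_eq_mul]
    · intro d _ hd
      rw [notMem_support_iff.mp hd, zero_mul]
  have hsup : (subst g x).support ⊆ Φ.support := by
    intro d hd
    rw [mem_support_iff] at hd ⊢
    intro h0
    apply hd
    rw [← hΦ g, coeff_map, h0, map_zero]
  rw [hF _ hsup, map_sum]
  refine Finset.sum_congr rfl fun d _ => ?_
  rw [map_mul, eval_C, ← hΦ g, coeff_map]

end Pool.Agent.H4.S2P
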