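import Pool.Agent.H4.S2P.Sym

/-!
# Irreducibility of the multihomogeneous polynomials
-/

open MvPolynomial

namespace Pool.Agent.H4.S2P

variable {I : Type} [Fintype I]

/-- The polynomials over `R`, homogeneous of degree `n` in each pair of variables. -/
noncomputable abbrev VR (I : Type) (R : Type) [CommRing R] (n : ℕ) :
    Submodule R (MvPolynomial (I × Fin 2) R) :=
  weightedHomogeneousSubmodule R (wt I) (fun _ => n)

/-- The highest weight vector. -/
noncomputable def hv (I : Type) [Fintype I] (R : Type) [CommRing R] (n : ℕ) :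
    MvPolynomial (I × Fin 2) R := ∏ i, X (i, 0) ^ n

theorem prod_pow_first (R : Type) [CommRing R] {n : ℕ} {d : I × Fin 2 →₀ ℕ}
    (hd : Finsupp.weight (wt I) d = (fun _ => n)) :
    ∏ t : I × Fin 2, (X (t.1, 0) : MvPolynomial (I × Fin 2) R) ^ d t = hv I R n := by
  rw [Fintype.prod_prod_type]
  unfold hv
  refine Finset.prod_congr rfl fun i _ => ?_
  rw [Fin.prod_univ_two, ← pow_add, (weight_iff n d).mp hd i]

theorem hv_homog (R : Type) [CommRing R] (n : ℕ) : hv I R n ∈ VR I R n := by
  rw [mem_weightedHomogeneousSubmodule]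
  unfold hv
  have h := IsWeightedHomogeneous.prod Finset.univ (fun i => (X (i, 0) : MvPolynomial _ R) ^ n)
    (fun i => n • wt I (i, 0)) (fun i _ => (isWeightedHomogeneous_X R (wt I) (i, 0)).pow n)
  have h2 : ∑ i, n • wt I (i, 0) = (fun _ => n) := by
    classical
    funext j
    rw [Finset.sum_apply, Finset.sum_eq_single j]
    · simp [wt]
    · intro i _ hi
      simp [wt, Pi.single_apply, Ne.symm hi]
    · intro h
      exact absurd (Finset.mem_univ _) h
  rwa [h2] at h

/-- Substitution of a matrix with zero second row. -/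
theorem subst_rank_one {n : ℕ} (z : I × Fin 2 → ℚ) {p : MvPolynomial (I × Fin 2) ℚ}
    (hp : IsWeightedHomogeneous (wt I) p (fun _ => n)) :
    subst (fun i => !![z (i, 0), z (i, 1); 0, 0]) p = C (eval z p) * hv I ℚ n := by
  induction hp using IsWeightedHomogeneous.induction_on with
  | zero => rw [map_zero, map_zero, C_0, zero_mul]
  | add p q hp hq h1 h2 => rw [map_add, h1, h2, map_add, C_add, add_mul]
  | monomial d r hr =>
    rw [subst_monomial, ← prod_pow_first ℚ hr, eval_monomial,
      Finsupp.prod_fintype _ _ (by simp), C_mul, map_prod, mul_assoc, ← Finset.prod_mul_distrib]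
    congr 1
    refine Finset.prod_congr rfl fun t _ => ?_
    rw [C_pow, ← mul_pow, subst_X]
    congr 1
    have h : ∀ (i : I) (j : Fin 2),
        C ((!![z (i, 0), z (i, 1); 0, 0] : Matrix (Fin 2) (Fin 2) ℚ) 0 j) * X (i, 0)
          + C ((!![z (i, 0), z (i, 1); 0, 0] : Matrix (Fin 2) (Fin 2) ℚ) 1 j) * X (i, 1)
        = (C (z (i, j)) * X (i, 0) : MvPolynomial (I × Fin 2) ℚ) := by
      intro i
      rw [Fin.forall_fin_two]
      exact ⟨by simp, by simp⟩
    exact h t.1 t.2

/-- Scaling of all matrices. -/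
theorem subst_smul {n : ℕ} (s : ℚ) (g : I → Matrix (Fin 2) (Fin 2) ℚ)
    {p : MvPolynomial (I × Fin 2) ℚ} (hp : IsWeightedHomogeneous (wt I) p (fun _ => n)) :
    subst (fun i => s • g i) p = C (s ^ (Fintype.card I * n)) * subst g p := by
  induction hp using IsWeightedHomogeneous.induction_on with
  | zero => rw [map_zero, map_zero, mul_zero]
  | add p q hp hq h1 h2 => rw [map_add, h1, h2, map_add, mul_add]
  | monomial d r hr =>
    have hX : ∀ t : I × Fin 2, subst (fun i => s • g i) (X t) = C s * subst g (X t) := by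
      intro t
      rw [subst_X, subst_X, Matrix.smul_apply, Matrix.smul_apply, smul_eq_mul, smul_eq_mul, C_mul,
        C_mul]
      ring
    have hsum : ∑ t, d t = Fintype.card I * n := by
      rw [Fintype.sum_prod_type]
      rw [Finset.sum_congr rfl (fun i _ => ?_ : ∀ i ∈ Finset.univ, ∑ j, d (i, j) = n),
        Finset.sum_const, Finset.card_univ, smul_eq_mul]
      rw [Fin.sum_univ_two, (weight_iff n d).mp hr i]
    rw [subst_monomial, subst_monomial]
    simp_rw [hX, mul_pow]
    rw [Finset.prod_mul_distrib, Finset.prod_pow_eq_pow_sum, hsum, C_pow]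
    ring

/-- A subspace of `V_n` which is stable under `SL_2(ℚ)^I` and nonzero contains the highest weight
vector: version for functionals. -/
theorem functional_hv {n : ℕ} {x : MvPolynomial (I × Fin 2) ℚ}
    (hx : IsWeightedHomogeneous (wt I) x (fun _ => n)) (hx0 : x ≠ 0)
    (F : MvPolynomial (I × Fin 2) ℚ →ₗ[ℚ] ℚ)
    (hF : ∀ g : SL2I I ℚ, F (subst (fun i => (g i).1) x) = 0) : F (hv I ℚ n) = 0 := by
  -- a point where `x` does not vanish, with nonzero first coordinates
  obtain ⟨z, hz⟩ : ∃ z : I × Fin 2 → ℚ, eval z (x * ∏ i, X (i, 0)) ≠ 0 := by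
    by_contra hcon
    push Not at hcon
    have h0 : x * ∏ i, X (i, 0) = 0 := by
      apply MvPolynomial.funext
      intro z
      rw [hcon z, map_zero]
    rcases mul_eq_zero.mp h0 with h | h
    · exact hx0 h
    · exact Finset.prod_ne_zero_iff.mpr (fun i _ => X_ne_zero _) h
  rw [map_mul, map_prod] at hz
  have hz1 : eval z x ≠ 0 := left_ne_zero_of_mul hz
  have hz2 : ∀ i, z (i, 0) ≠ 0 := by
    intro i
    have := Finset.prod_ne_zero_iff.mp (right_ne_zero_of_mul hz) i (Finset.mem_univ _)
    rwa [eval_X] at this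
  -- the one-parameter family
  obtain ⟨P, hP⟩ := poly_coeff F x
  let e : I × Fin 2 × Fin 2 → Polynomial ℚ := fun t =>
    (!![Polynomial.C (z (t.1, 0)), Polynomial.C (z (t.1, 1)); 0,
      Polynomial.X * Polynomial.C (z (t.1, 0))⁻¹] : Matrix (Fin 2) (Fin 2) (Polynomial ℚ))
        t.2.1 t.2.2
  let Q : Polynomial ℚ := aeval e P
  have hQ : ∀ τ : ℚ, Q.eval τ
      = F (subst (fun i => !![z (i, 0), z (i, 1); 0, τ * (z (i, 0))⁻¹]) x) := by
    intro τ
    rw [hP]
    have h1 : Q.eval τ = (Polynomial.evalRingHom τ) (aeval e P) := rfl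
    rw [h1, MvPolynomial.aeval_def, MvPolynomial.hom_eval₂, MvPolynomial.eval_eq']
    rw [MvPolynomial.eval₂_eq']
    refine Finset.sum_congr rfl fun d _ => ?_
    congr 1
    · simp
    · refine Finset.prod_congr rfl fun t _ => ?_
      congr 1
      obtain ⟨i, l, j⟩ := t
      have h : ∀ l j : Fin 2, Polynomial.evalRingHom τ (e (i, l, j))
          = (!![z (i, 0), z (i, 1); 0, τ * (z (i, 0))⁻¹] : Matrix (Fin 2) (Fin 2) ℚ) l j := by
        rw [Fin.forall_fin_two]
        constructor
        · rw [Fin.forall_fin_two]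
          constructor
          · simp [e]
          · simp [e]
        · rw [Fin.forall_fin_two]
          constructor
          · simp [e]
          · simp [e]
            ring
      exact h l j
  have hroot : ∀ m : ℕ, Q.eval (((m : ℚ) + 1) ^ 2)⁻¹ = 0 := by
    intro m
    rw [hQ]
    set s : ℚ := (m : ℚ) + 1 with hs
    have hs0 : s ≠ 0 := by positivity
    let g : SL2I I ℚ := fun i =>
      ⟨s • !![z (i, 0), z (i, 1); 0, (s ^ 2)⁻¹ * (z (i, 0))⁻¹], by
        have := hz2 i
        rw [Matrix.det_fin_two]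
        simp only [Matrix.smul_apply, Matrix.of_apply, Matrix.cons_val_zero, Matrix.cons_val_one,
          Matrix.cons_val', Matrix.cons_val_fin_one, smul_eq_mul]
        field_simp
        ring⟩
    have h1 := hF g
    have h2 : subst (fun i => (g i).1) x
        = C (s ^ (Fintype.card I * n)) *
          subst (fun i => !![z (i, 0), z (i, 1); 0, (s ^ 2)⁻¹ * (z (i, 0))⁻¹]) x :=
      subst_smul s _ hx
    rw [h2, ← smul_eq_C_mul, map_smul, smul_eq_mul] at h1
    exact (mul_eq_zero.mp h1).resolve_left (pow_ne_zero _ hs0)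
  have hQ0 : Q = 0 := by
    apply Polynomial.eq_zero_of_infinite_isRoot
    have hinj : Function.Injective (fun m : ℕ => (((m : ℚ) + 1) ^ 2)⁻¹) := by
      intro a b hab
      have h1 : ((a : ℚ) + 1) ^ 2 = ((b : ℚ) + 1) ^ 2 := inv_injective hab
      have h2 : (a : ℚ) + 1 = (b : ℚ) + 1 := by
        have ha : (0 : ℚ) ≤ (a : ℚ) + 1 := by positivity
        have hb : (0 : ℚ) ≤ (b : ℚ) + 1 := by positivity
        exact (sq_eq_sq₀ ha hb).mp h1
      exact_mod_cast add_right_cancel h2
    refine Set.Infinite.mono ?_ (Set.infinite_range_of_injective hinj)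
    rintro _ ⟨m, rfl⟩
    exact hroot m
  have h0 := hQ 0
  rw [hQ0, Polynomial.eval_zero] at h0
  have h1 : (fun i => !![z (i, 0), z (i, 1); 0, (0 : ℚ) * (z (i, 0))⁻¹])
      = (fun i : I => !![z (i, 0), z (i, 1); 0, 0]) := by
    funext i
    rw [zero_mul]
  rw [h1, subst_rank_one z hx, ← smul_eq_C_mul, map_smul, smul_eq_mul] at h0
  exact (mul_eq_zero.mp h0.symm).resolve_left hz1

end Pool.Agent.H4.S2P
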