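import Pool.Agent.H4.S2P.SymIrr
import Pool.Agent.H4.S2P.Auto

/-!
# The irreducible representation of highest weight `(n,0)` in every factor, and a stable lattice
-/

open MvPolynomial

namespace Pool.Agent.H4.S2P

variable {I : Type} [Fintype I]

/-- The lower unipotent element. -/
def lowU (t : I → ℚ) : SL2I I ℚ := fun i => ⟨!![1, 0; t i, 1], by simp [Matrix.det_fin_two]⟩

theorem subst_lowU (n : ℕ) (t : I → ℚ) :
    subst (fun i => (lowU t i).1) (hv I ℚ n)
      = ∏ i, (X (i, 0) + C (t i) * X (i, 1) : MvPolynomial (I × Fin 2) ℚ) ^ n := by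
  unfold hv
  rw [map_prod]
  refine Finset.prod_congr rfl fun i _ => ?_
  rw [map_pow, subst_X]
  congr 1
  simp [lowU]

/-- A functional vanishing on the orbit of the highest weight vector vanishes on `V_n`. -/
theorem functional_zero {n : ℕ} (F : MvPolynomial (I × Fin 2) ℚ →ₗ[ℚ] ℚ)
    (hF : ∀ t : I → ℚ, F (∏ i, (X (i, 0) + C (t i) * X (i, 1)) ^ n) = 0)
    {d : I × Fin 2 →₀ ℕ} (hd : Finsupp.weight (wt I) d = (fun _ => n)) :
    F (monomial d 1) = 0 := by
  classical
  -- the monomial with exponents `κ`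
  let mo : (I → ℕ) → MvPolynomial (I × Fin 2) ℚ := fun κ =>
    ∏ i, X (i, 0) ^ (n - κ i) * X (i, 1) ^ κ i
  let S : Finset (I → ℕ) := Fintype.piFinset fun _ => Finset.range (n + 1)
  have hexp : ∀ t : I → ℚ, (∏ i, (X (i, 0) + C (t i) * X (i, 1)) ^ n : MvPolynomial (I × Fin 2) ℚ)
      = ∑ κ ∈ S, ((∏ i, (t i) ^ κ i) * ∏ i, (n.choose (κ i) : ℚ)) • mo κ := by
    intro t
    have h1 : ∀ i : I, (X (i, 0) + C (t i) * X (i, 1) : MvPolynomial (I × Fin 2) ℚ) ^ n
        = ∑ a ∈ Finset.range (n + 1), C ((t i) ^ a * (n.choose a : ℚ)) *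
            (X (i, 0) ^ (n - a) * X (i, 1) ^ a) := by
      intro i
      rw [add_comm, add_pow]
      refine Finset.sum_congr rfl fun a _ => ?_
      rw [mul_pow, C_mul, C_pow, map_natCast]
      ring
    simp_rw [h1]
    rw [Finset.prod_univ_sum]
    refine Finset.sum_congr rfl fun κ _ => ?_
    simp only [mo]
    rw [smul_eq_C_mul, ← Finset.prod_mul_distrib, map_prod, ← Finset.prod_mul_distrib]
  let Q : MvPolynomial I ℚ := ∑ κ ∈ S,
    monomial (Finsupp.equivFunOnFinite.symm κ) ((∏ i, (n.choose (κ i) : ℚ)) * F (mo κ))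
  have hQ : Q = 0 := by
    apply MvPolynomial.funext
    intro t
    have h1 := hF t
    rw [hexp, map_sum] at h1
    rw [map_zero, map_sum, ← h1]
    refine Finset.sum_congr rfl fun κ _ => ?_
    rw [eval_monomial, map_smul, smul_eq_mul, Finsupp.prod_fintype _ _ (by simp)]
    simp only [Finsupp.equivFunOnFinite_symm_apply_apply]
    ring
  -- the exponents of `d`
  let κ : I → ℕ := fun i => d (i, 1)
  have hdi := (weight_iff n d).mp hd
  have hκ : κ ∈ S := by
    rw [Fintype.mem_piFinset]
    intro i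
    rw [Finset.mem_range]
    have := hdi i
    change d (i, 1) < n + 1
    omega
  have hco : coeff (Finsupp.equivFunOnFinite.symm κ) Q
      = (∏ i, (n.choose (κ i) : ℚ)) * F (mo κ) := by
    rw [coeff_sum, Finset.sum_eq_single κ]
    · rw [coeff_monomial, if_pos rfl]
    · intro b _ hb
      rw [coeff_monomial, if_neg]
      intro h
      exact hb (Finsupp.equivFunOnFinite.symm.injective h)
    · intro h
      exact absurd hκ h
  rw [hQ, coeff_zero] at hco
  have hch : (∏ i, (n.choose (κ i) : ℚ)) ≠ 0 := by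
    rw [Finset.prod_ne_zero_iff]
    intro i _
    have h1 : 0 < n.choose (κ i) := Nat.choose_pos (by
      have := hdi i
      change d (i, 1) ≤ n
      omega)
    exact_mod_cast h1.ne'
  have hmo : mo κ = monomial d 1 := by
    rw [monomial_eq, C_1, one_mul, Finsupp.prod_fintype _ _ (by simp), Fintype.prod_prod_type]
    refine Finset.prod_congr rfl fun i _ => ?_
    rw [Fin.prod_univ_two]
    congr 2
    have := hdi i
    change n - d (i, 1) = d (i, 0)
    omega
  rw [← hmo]
  exact (mul_eq_zero.mp hco.symm).resolve_left hch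

theorem mem_subst {R : Type} [CommRing R] {n : ℕ} (g : I → Matrix (Fin 2) (Fin 2) R)
    {p : MvPolynomial (I × Fin 2) R} (hp : p ∈ VR I R n) : subst g p ∈ VR I R n := by
  rw [mem_weightedHomogeneousSubmodule] at hp ⊢
  exact homog_subst g hp

/-- Substitution on the multihomogeneous polynomials. -/
noncomputable def substV {R : Type} [CommRing R] (n : ℕ) (g : I → Matrix (Fin 2) (Fin 2) R) :
    VR I R n →ₗ[R] VR I R n :=
  LinearMap.restrict (subst g).toLinearMap (fun _ hp => mem_subst g hp)

theorem substV_coe {R : Type} [CommRing R] (n : ℕ) (g : I → Matrix (Fin 2) (Fin 2) R)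
    (x : VR I R n) : (substV n g x).1 = subst g x.1 := rfl

/-- The action of `SL_2(R)^I` on the multihomogeneous polynomials. -/
noncomputable def symRep (I : Type) [Fintype I] (R : Type) [CommRing R] (n : ℕ) :
    Representation R (SL2I I R) (VR I R n) where
  toFun g := substV n (fun i => (g i).1)
  map_one' := by
    ext1 x
    apply Subtype.ext
    change subst (fun i => ((1 : SL2I I R) i).1) x.1 = x.1
    have h : (fun i => ((1 : SL2I I R) i).1) = 1 := rfl
    rw [h, subst_one]
    rfl
  map_mul' g h := by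
    ext1 x
    apply Subtype.ext
    change subst (fun i => ((g * h) i).1) x.1
      = subst (fun i => (g i).1) (subst (fun i => (h i).1) x.1)
    have h1 : (fun i => ((g * h) i).1) = (fun i => (g i).1) * (fun i => (h i).1) := rfl
    rw [h1, subst_mul]
    rfl

theorem symRep_coe (R : Type) [CommRing R] (n : ℕ) (g : SL2I I R) (x : VR I R n) :
    (symRep I R n g x).1 = subst (fun i => (g i).1) x.1 := rfl

theorem finite_exponents (n : ℕ) :
    {d : I × Fin 2 →₀ ℕ | Finsupp.weight (wt I) d = (fun _ => n)}.Finite := by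
  classical
  refine Set.Finite.subset (Set.Finite.preimage
    (f := fun d : I × Fin 2 →₀ ℕ => (d : I × Fin 2 → ℕ)) (DFunLike.coe_injective.injOn)
    (Set.finite_Iic (fun _ => n))) ?_
  intro d hd
  rw [Set.mem_preimage, Set.mem_Iic]
  intro t
  obtain ⟨i, j⟩ := t
  have h := (weight_iff n d).mp hd i
  change d (i, j) ≤ n
  have h2 : ∀ j : Fin 2, d (i, j) ≤ n := by
    rw [Fin.forall_fin_two]
    omega
  exact h2 j

theorem finite_VR (R : Type) [CommRing R] (n : ℕ) : Module.Finite R (VR I R n) := by
  have h1 : VR I R n = weightedHomogeneousSubmodule R (wt I) (fun _ => n) := rfl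
  rw [h1, weightedHomogeneousSubmodule_eq_finsupp_supported]
  have := (finite_exponents (I := I) n).to_subtype
  exact Module.Finite.of_basis
    (basisRestrictSupport R {d : I × Fin 2 →₀ ℕ | Finsupp.weight (wt I) d = (fun _ => n)})

end Pool.Agent.H4.S2P
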